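import Pool.Agent.TH553.RS.ArtinG

set_option autoImplicit false

/-!
# The exceptional pair
-/

namespace Pool.Agent.TH553.RS

open Complex Filter Topology ComplexConjugate Pool.Agent.H341R2 NumberField IsDedekindDomain
  Pool.Agent.W401.Cheb Polynomial Pool.Agent.W540.BE

section

variable {F : Type} [Field F] [NumberField F]

theorem finrank_hom_le_one {G : Type*} [Group G] {V W : Type*} [AddCommGroup V] [Module ℂ V]
    [AddCommGroup W] [Module ℂ W] [Module.Finite ℂ V] [Module.Finite ℂ W]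
    {ρ : Representation ℂ G V} (hi : ρ.IsIrreducible)
    {σ : Representation ℂ G W} (hd : Module.finrank ℂ V = Module.finrank ℂ W) :
    Module.finrank ℂ (ρ.IntertwiningMap σ) ≤ 1 := by
  by_cases h : Module.finrank ℂ (ρ.IntertwiningMap σ) = 0
  · omega
  · obtain ⟨e⟩ := equiv_of_hom hi hd h
    have h1 := Representation.IsIrreducible.algebraMap_intertwiningMap_bijective_of_isAlgClosed
      (ρ := ρ)
    have h2 := LinearEquiv.ofBijective (Algebra.linearMap ℂ (ρ.IntertwiningMap ρ)) h1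
    have h3 : Module.finrank ℂ (ρ.IntertwiningMap ρ) = 1 := by
      rw [← h2.finrank_eq, Module.finrank_self]
    -- composition with `e.symm`
    let L : (ρ.IntertwiningMap σ) →ₗ[ℂ] (ρ.IntertwiningMap ρ) :=
      { toFun := fun f => ⟨e.symm.toLinearEquiv.toLinearMap ∘ₗ f.toLinearMap, fun g => by
          have h4 := f.isIntertwining' g
          have h5 := e.symm.isIntertwining' g
          refine LinearMap.ext fun v => ?_
          have h6 := congrArg (fun L => L v) h4
          have h7 := congrArg (fun L => L (f.toLinearMap v)) h5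
          simp only [LinearMap.comp_apply] at h6 h7 ⊢
          rw [h6]
          exact h7⟩
        map_add' := fun f g => by
          refine Representation.IntertwiningMap.toLinearMap_injective _ _ ?_
          refine LinearMap.ext fun v => ?_
          exact map_add e.symm.toLinearEquiv _ _
        map_smul' := fun c f => by
          refine Representation.IntertwiningMap.toLinearMap_injective _ _ ?_
          refine LinearMap.ext fun v => ?_
          exact map_smul e.symm.toLinearEquiv _ _ }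
    have hL : Function.Injective L := by
      intro f g hfg
      refine Representation.IntertwiningMap.toLinearMap_injective _ _ ?_
      refine LinearMap.ext fun v => ?_
      have h8 := congrArg (fun L : ρ.IntertwiningMap ρ => L.toLinearMap v) hfg
      exact e.symm.toLinearEquiv.injective h8
    haveI : Module.Finite ℂ (ρ.IntertwiningMap ρ) :=
      Module.finite_of_finrank_pos (by rw [h3]; norm_num)
    have h9 := LinearMap.finrank_le_finrank_of_injective hL
    omega

theorem finrank_fin_dual (n : ℕ) :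
    Module.finrank ℂ (Fin n → ℂ) = Module.finrank ℂ (Module.Dual ℂ (Fin n → ℂ)) :=
  Subspace.dual_finrank_eq.symm

/-- the pairing of an irreducible representation with itself -/
theorem ga_self {n : ℕ} {ρ : Representation ℂ (GK F) (Fin n → ℂ)} (hi : ρ.IsIrreducible) (τ : ℝ) :
    ga ρ τ ρ τ ≤ 1 ∧ (1 / 2 < ga ρ τ ρ τ → τ = 0 ∧ Nonempty (ρ.Equiv ρ.dual) ∧
      ga ρ τ ρ τ = 1) := by
  classical
  have h1 := finrank_end_irr ρ hi
  have h2 := finrank_hom_le_one hi (σ := ρ.dual) (finrank_fin_dual n)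
  unfold ga
  rw [if_pos rfl, h1]
  by_cases hτ : τ = -τ
  · have hτ0 : τ = 0 := by linarith
    rw [if_pos hτ]
    have h3 : (Module.finrank ℂ (ρ.IntertwiningMap ρ.dual) : ℝ) ≤ 1 := by exact_mod_cast h2
    refine ⟨by push_cast; linarith, fun h => ⟨hτ0, ?_, ?_⟩⟩
    · refine equiv_of_hom hi (finrank_fin_dual n) fun h4 => ?_
      rw [h4] at h
      norm_num at h
    · have h4 : Module.finrank ℂ (ρ.IntertwiningMap ρ.dual) ≠ 0 := by
        intro h4
        rw [h4] at h
        norm_num at h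
      have h5 : Module.finrank ℂ (ρ.IntertwiningMap ρ.dual) = 1 := by omega
      rw [h5]
      norm_num
  · rw [if_neg hτ]
    refine ⟨by norm_num, fun h => ?_⟩
    norm_num at h

theorem ga_self_real {n : ℕ} {ρ : Representation ℂ (GK F) (Fin n → ℂ)} (hi : ρ.IsIrreducible)
    (h : Nonempty (ρ.Equiv ρ.dual)) : ga ρ 0 ρ 0 = 1 := by
  classical
  have h1 := finrank_end_irr ρ hi
  have h2 := finrank_hom_le_one hi (σ := ρ.dual) (finrank_fin_dual n)
  have h3 : Module.finrank ℂ (ρ.IntertwiningMap ρ.dual) ≠ 0 := by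
    intro h4
    obtain ⟨e⟩ := h
    haveI : Module.Finite ℂ (ρ.IntertwiningMap ρ.dual) := by
      have hin : Function.Injective (fun f : ρ.IntertwiningMap ρ.dual => f.toLinearMap) :=
        Representation.IntertwiningMap.toLinearMap_injective _ _
      let L : ρ.IntertwiningMap ρ.dual →ₗ[ℂ] ((Fin n → ℂ) →ₗ[ℂ] Module.Dual ℂ (Fin n → ℂ)) :=
        { toFun := fun f => f.toLinearMap
          map_add' := fun _ _ => rfl
          map_smul' := fun _ _ => rfl }
      exact Module.Finite.of_injective L hin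
    have h5 : Subsingleton (ρ.IntertwiningMap ρ.dual) := Module.finrank_zero_iff.1 h4
    have h6 : (⟨e.toLinearEquiv.toLinearMap, fun g => e.isIntertwining' g⟩ :
        ρ.IntertwiningMap ρ.dual) = 0 := Subsingleton.elim _ _
    have h7 : e.toLinearEquiv.toLinearMap = 0 :=
      congrArg (fun f : ρ.IntertwiningMap ρ.dual => f.toLinearMap) h6
    have h8 : Module.finrank ℂ (ρ.IntertwiningMap ρ) = 0 := by
      have h9 : Subsingleton (Fin n → ℂ) := by
        refine ⟨fun a b => e.toLinearEquiv.injective ?_⟩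
        have e1 := congrArg (fun L : (Fin n → ℂ) →ₗ[ℂ] Module.Dual ℂ (Fin n → ℂ) => L a) h7
        have e2 := congrArg (fun L : (Fin n → ℂ) →ₗ[ℂ] Module.Dual ℂ (Fin n → ℂ) => L b) h7
        exact e1.trans e2.symm
      have h10 : Subsingleton (ρ.IntertwiningMap ρ) := by
        refine ⟨fun a b => Representation.IntertwiningMap.toLinearMap_injective _ _ ?_⟩
        exact LinearMap.ext fun v => Subsingleton.elim _ _
      exact Module.finrank_zero_of_subsingleton
    omega
  unfold ga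
  rw [if_pos rfl, h1, if_pos (by simp)]
  have h11 : Module.finrank ℂ (ρ.IntertwiningMap ρ.dual) = 1 := by omega
  rw [h11]
  norm_num

theorem ga_self_half {n : ℕ} {ρ : Representation ℂ (GK F) (Fin n → ℂ)} (hi : ρ.IsIrreducible)
    {τ : ℝ} (h : ¬ (τ = 0 ∧ Nonempty (ρ.Equiv ρ.dual))) : ga ρ τ ρ τ = 1 / 2 := by
  classical
  have h1 := finrank_end_irr ρ hi
  have h2 : ¬ 1 / 2 < ga ρ τ ρ τ := fun h3 => by
    obtain ⟨h4, h5, -⟩ := (ga_self hi τ).2 h3
    exact h ⟨h4, h5⟩
  refine le_antisymm (not_lt.1 h2) ?_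
  unfold ga
  rw [if_pos rfl, h1]
  have : (0 : ℝ) ≤ if τ = -τ then (Module.finrank ℂ (ρ.IntertwiningMap ρ.dual) : ℝ) else 0 := by
    split_ifs <;> positivity
  push_cast
  linarith

/-- the injectivity of nonzero maps -/
theorem le_of_hom {G : Type*} [Group G] {V W : Type*} [AddCommGroup V] [Module ℂ V]
    [AddCommGroup W] [Module ℂ W] [Module.Finite ℂ V] [Module.Finite ℂ W]
    {ρ : Representation ℂ G V} (hi : ρ.IsIrreducible)
    {σ : Representation ℂ G W} (f : ρ.IntertwiningMap σ) (hf : f ≠ 0) :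
    Module.finrank ℂ V ≤ Module.finrank ℂ W := by
  have hinj : Function.Injective f.toLinearMap := by
    rw [← LinearMap.ker_eq_bot]
    let S : Subrepresentation ρ := ⟨LinearMap.ker f.toLinearMap, fun g v hv => by
      rw [LinearMap.mem_ker] at hv ⊢
      have h2 := f.isIntertwining' g
      have h3 := congrArg (fun L => L v) h2
      simp only [LinearMap.comp_apply] at h3
      rw [h3, hv, map_zero]⟩
    have h4 : S = ⊥ ∨ S = ⊤ := by
      have := hi
      exact IsSimpleOrder.eq_bot_or_eq_top S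
    rcases h4 with h4 | h4
    · exact congrArg Subrepresentation.toSubmodule h4
    · exfalso
      apply hf
      have h5 : LinearMap.ker f.toLinearMap = ⊤ := congrArg Subrepresentation.toSubmodule h4
      have h6 : f.toLinearMap = 0 := LinearMap.ker_eq_top.1 h5
      exact Representation.IntertwiningMap.toLinearMap_injective _ _ h6
  exact LinearMap.finrank_le_finrank_of_injective hinj

/-- a map to a dual representation -/
theorem equiv_dual {n n' : ℕ} {ρ : Representation ℂ (GK F) (Fin n → ℂ)} (hi : ρ.IsIrreducible)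
    {ρ' : Representation ℂ (GK F) (Fin n' → ℂ)} (hi' : ρ'.IsIrreducible)
    (h : Module.finrank ℂ (ρ.IntertwiningMap ρ'.dual) ≠ 0) : Nonempty (ρ.Equiv ρ'.dual) := by
  have h1 : Nontrivial (ρ.IntertwiningMap ρ'.dual) := by
    by_contra hcon
    rw [not_nontrivial_iff_subsingleton] at hcon
    exact h Module.finrank_zero_of_subsingleton
  obtain ⟨f, hf⟩ := exists_ne (0 : ρ.IntertwiningMap ρ'.dual)
  have h2 := le_of_hom hi f hf
  let f' : ρ'.IntertwiningMap ρ.dual := ⟨f.toLinearMap.flip, fun g => by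
    refine LinearMap.ext fun w => LinearMap.ext fun v => ?_
    have h3 := congrArg (fun L => L (ρ g⁻¹ v)) (f.isIntertwining' g)
    simp only [LinearMap.comp_apply] at h3
    have h4 : ρ g (ρ g⁻¹ v) = v := by
      rw [← Module.End.mul_apply, ← map_mul, mul_inv_cancel, map_one]
      rfl
    rw [h4] at h3
    have h5 := congrArg (fun φ : Module.Dual ℂ (Fin n' → ℂ) => φ (ρ' g w)) h3
    simp only [Representation.dual_apply] at h5
    change f.toLinearMap v (ρ' g w) = f.toLinearMap (ρ g⁻¹ v) w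
    rw [h5]
    change f.toLinearMap (ρ g⁻¹ v) (ρ' g⁻¹ (ρ' g w)) = _
    rw [← Module.End.mul_apply, ← map_mul, inv_mul_cancel, map_one]
    rfl⟩
  have hf' : f' ≠ 0 := by
    intro h3
    apply hf
    refine Representation.IntertwiningMap.toLinearMap_injective _ _ ?_
    refine LinearMap.ext fun v => LinearMap.ext fun w => ?_
    have h4 : f'.toLinearMap = 0 :=
      congrArg (fun f : ρ'.IntertwiningMap ρ.dual => f.toLinearMap) h3
    have h5 : f'.toLinearMap w v = 0 := by rw [h4]; rfl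
    exact h5
  have h3 := le_of_hom hi' f' hf'
  rw [← finrank_fin_dual] at h2 h3
  refine equiv_of_hom hi ?_ h
  rw [← finrank_fin_dual]
  exact le_antisymm h2 h3

theorem ga_ne {n n' : ℕ} {ρ : Representation ℂ (GK F) (Fin n → ℂ)} (hi : ρ.IsIrreducible)
    {ρ' : Representation ℂ (GK F) (Fin n' → ℂ)} (hi' : ρ'.IsIrreducible) {τ τ' : ℝ}
    (h : ¬ (τ = τ' ∧ Nonempty (ρ.Equiv ρ'))) (h' : ¬ (τ = -τ' ∧ Nonempty (ρ.Equiv ρ'.dual))) :
    ga ρ τ ρ' τ' = 0 := by
  classical
  unfold ga
  have e1 : (if τ = τ' then (Module.finrank ℂ (ρ.IntertwiningMap ρ') : ℝ) else 0) = 0 := by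
    split_ifs with h1
    · have h2 : IsEmpty (ρ.Equiv ρ') := not_nonempty_iff.1 fun h3 => h ⟨h1, h3⟩
      rw [finrank_hom_irr ρ ρ' hi hi' h2, Nat.cast_zero]
    · rfl
  have e2 : (if τ = -τ' then (Module.finrank ℂ (ρ.IntertwiningMap ρ'.dual) : ℝ) else 0) = 0 := by
    split_ifs with h1
    · have h2 : Module.finrank ℂ (ρ.IntertwiningMap ρ'.dual) = 0 := by
        by_contra hcon
        exact h' ⟨h1, equiv_dual hi hi' hcon⟩
      rw [h2, Nat.cast_zero]
    · rfl
  rw [e1, e2]
  ring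

variable {σ : HeightOneSpectrum (𝓞 F) → GK F}

theorem M_gram {n n' : ℕ} {ρ : Representation ℂ (GK F) (Fin n → ℂ)} (hρ : Open ρ) (τ : ℝ)
    {ρ' : Representation ℂ (GK F) (Fin n' → ℂ)} (hρ' : Open ρ') (τ' : ℝ)
    (hσ : ∀ v, IsFrob v (σ v)) {V : Ultrafilter ℝ} (hV : (V : Filter ℝ) ≤ 𝓝[>] 0) :
    (M (nm F) V fun v => vr σ ρ τ v * vr σ ρ' τ' v) = ga ρ τ ρ' τ' :=
  M_of_tendsto hV (gramA hρ τ hρ' τ' hσ)

theorem vr_sq {n : ℕ} (ρ : Representation ℂ (GK F) (Fin n → ℂ)) (τ : ℝ) :
    (fun v => vr σ ρ τ v ^ 2) = fun v => vr σ ρ τ v * vr σ ρ τ v := funext fun v => pow_two _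

open Classical in
/-- the indicator function of a kernel -/
noncomputable def ik (σ : HeightOneSpectrum (𝓞 F) → GK F) {n : ℕ}
    (ρ : Representation ℂ (GK F) (Fin n → ℂ)) (v : HeightOneSpectrum (𝓞 F)) : ℝ :=
  if ρ (σ v) = 1 then 1 else 0

theorem bd_ik {n : ℕ} (ρ : Representation ℂ (GK F) (Fin n → ℂ)) : Bd (ik σ ρ) := by
  refine ⟨1, fun v => ?_⟩
  unfold ik
  split_ifs <;> simp

theorem M_ik {n : ℕ} {ρ : Representation ℂ (GK F) (Fin n → ℂ)} (hρ : Open ρ)
    (hσ : ∀ v, IsFrob v (σ v)) {V : Ultrafilter ℝ} (hV : (V : Filter ℝ) ≤ 𝓝[>] 0) :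
    0 < M (nm F) V (ik σ ρ) := by
  classical
  obtain ⟨U, _, hfin, hU, hm⟩ := hρ.ker
  letI : Fintype (GK F ⧸ U) := Fintype.ofFinite _
  have h1 := M_class U hU (fun q => if q = 1 then 1 else 0) (fun a g => by
    have : g * a * g⁻¹ = 1 ↔ a = 1 := by
      constructor
      · intro h
        have h2 := congrArg (fun x => g⁻¹ * x * g) h
        simpa [mul_assoc] using h2
      · intro h
        rw [h]
        simp
    simp only [this]) hσ (c := ((Nat.card (GK F ⧸ U) : ℝ))⁻¹) (by
      rw [finsum_eq_sum_of_fintype]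
      simp) 0
  rw [if_pos rfl] at h1
  have h2 : (fun v => ((if (QuotientGroup.mk (σ v) : GK F ⧸ U) = 1 then (1 : ℂ) else 0) *
      ((nm F v : ℕ) : ℂ) ^ (-(((0 : ℝ) : ℂ) * I))).re) = ik σ ρ := by
    funext v
    unfold ik
    have h3 : (QuotientGroup.mk (σ v) : GK F ⧸ U) = 1 ↔ ρ (σ v) = 1 := by
      rw [QuotientGroup.eq_one_iff, hm]
    simp only [h3]
    split_ifs <;> simp
  rw [h2] at h1
  rw [M_of_tendsto hV h1]
  have : 0 < Nat.card (GK F ⧸ U) := Nat.card_pos
  positivity

/-- **The exceptional representation.** -/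
theorem exc1 {t : HeightOneSpectrum (𝓞 F) → ℝ} {b : ℝ} (hb : ∀ v, |t v| ≤ b)
    (ht2 : ∀ V : Ultrafilter ℝ, (V : Filter ℝ) ≤ 𝓝[>] 0 → M (nm F) V (fun v => t v ^ 2) ≤ 1)
    (hσ : ∀ v, IsFrob v (σ v)) {n : ℕ} {ρ : Representation ℂ (GK F) (Fin n → ℂ)} (hρ : Open ρ)
    (hi : ρ.IsIrreducible) {τ : ℝ} {m : ℤ} (hm : m ≠ 0) {V : Ultrafilter ℝ}
    (hV : (V : Filter ℝ) ≤ 𝓝[>] 0)
    (hc : (M (nm F) V fun v => t v * vr σ ρ τ v) = -(m : ℝ)) :
    τ = 0 ∧ |m| = 1 ∧ Nonempty (ρ.Equiv ρ.dual) ∧ (n : ℝ) ≤ b ∧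
      ¬ (∀ S : Finset ℝ, 0 < M (nm F) V fun v => ∏ c ∈ S, (t v - c) ^ 2) := by
  classical
  have hN := sysF F
  have hbt : Bd t := ⟨b, hb⟩
  have hbv := bd_vr σ hρ τ
  have h1 := M_cs hN hV hbt hbv
  have h2 := ht2 V hV
  have h3 : (M (nm F) V fun v => vr σ ρ τ v ^ 2) = ga ρ τ ρ τ := by
    rw [vr_sq]
    exact M_gram hρ τ hρ τ hσ hV
  have hg0 : 0 ≤ M (nm F) V fun v => vr σ ρ τ v ^ 2 := M_nonneg hN hV hbv.sq fun v => sq_nonneg _
  rw [hc, neg_sq, h3] at h1
  rw [h3] at hg0
  have h4 : (m : ℝ) ^ 2 ≤ ga ρ τ ρ τ := h1.trans (mul_le_of_le_one_left hg0 h2)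
  have hm1 : (1 : ℝ) ≤ (m : ℝ) ^ 2 := by
    have : 1 ≤ m ^ 2 := by
      have := Int.one_le_abs hm
      rw [← sq_abs]
      nlinarith
    exact_mod_cast this
  obtain ⟨h5, h6⟩ := ga_self hi τ
  obtain ⟨h7, h8, h9⟩ := h6 (by linarith)
  subst h7
  have hmm : (m : ℝ) ^ 2 = 1 := le_antisymm (h4.trans h5) hm1
  have hmabs : |m| = 1 := by
    have h10 : m ^ 2 = 1 := by exact_mod_cast hmm
    have h11 : |m| ^ 2 = 1 := by rw [sq_abs]; exact h10
    have h12 := abs_nonneg m
    nlinarith
  have hmr : |(m : ℝ)| = 1 := by exact_mod_cast hmabs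
  rw [h9] at h3
  obtain ⟨e1, e2⟩ := extreme hN hV hbt h2 hbv h3 (m := -(m : ℝ)) (by rw [neg_sq, hmm]) hc
  refine ⟨rfl, hmabs, h8, ?_, fun hS => ?_⟩
  · -- the dimension
    have hpos := M_ik hρ hσ hV
    have e3 := e2 (ik σ ρ) (bd_ik ρ)
    have hvn : (fun v => vr σ ρ 0 v * ik σ ρ v) = fun v => (n : ℝ) * ik σ ρ v := by
      funext v
      unfold ik
      split_ifs with h
      · have h10 : ρ (σ v)⁻¹ = 1 := by
          have h11 : ρ (σ v)⁻¹ * ρ (σ v) = 1 := by rw [← map_mul]; simp
          rw [h, mul_one] at h11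
          exact h11
        have h12 : vr σ ρ 0 v = n := by
          unfold vr vc Representation.character
          rw [h10]
          simp
        rw [h12]
      · simp
    rw [hvn, M_const_mul hN hV (bd_ik ρ)] at e3
    have h10 : |M (nm F) V fun v => t v * ik σ ρ v| ≤ b * M (nm F) V (ik σ ρ) := by
      have h11 : ∀ v, |t v * ik σ ρ v| ≤ b * ik σ ρ v := by
        intro v
        unfold ik
        split_ifs
        · simpa using hb v
        · simp
      have hb1 := hbt.mul (bd_ik (σ := σ) ρ)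
      have hb2 := (bd_ik (σ := σ) ρ).const_mul b
      have h12 := M_mono hN hV hb1 hb2 fun v => (le_abs_self _).trans (h11 v)
      have h13 := M_mono hN hV hb2.neg hb1 fun v => by
        have := neg_abs_le (t v * ik σ ρ v)
        have := h11 v
        linarith
      rw [M_const_mul hN hV (bd_ik ρ)] at h12
      rw [M_neg hN hV hb2, M_const_mul hN hV (bd_ik ρ)] at h13
      rw [abs_le]
      exact ⟨h13, h12⟩
    rw [e3, abs_mul, abs_neg, hmr, one_mul, abs_of_nonneg (by positivity)] at h10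
    exact le_of_mul_le_mul_right h10 hpos
  · -- the values
    obtain ⟨U, _, hfin, hU, hmU⟩ := hρ.ker
    letI : Fintype (GK F ⧸ U) := Fintype.ofFinite _
    have hρU : ∀ u ∈ U, ρ u = 1 := fun u hu => (hmU u).1 hu
    set S : Finset ℝ := Finset.univ.image fun q : GK F ⧸ U =>
      -(m : ℝ) * ((qrep U ρ hρU).character q⁻¹).re with hSdef
    have hval : ∀ v, -(m : ℝ) * vr σ ρ 0 v ∈ S := by
      intro v
      rw [hSdef, Finset.mem_image]
      refine ⟨QuotientGroup.mk (σ v), Finset.mem_univ _, ?_⟩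
      congr 1
      unfold vr vc
      rw [← QuotientGroup.mk_inv, char_qrep]
      simp
    obtain ⟨C, hC0, hC⟩ : ∃ C : ℝ, 0 ≤ C ∧ ∀ y c : ℝ, |y| ≤ b → c ∈ S →
        ∏ c ∈ S, (y - c) ^ 2 ≤ C * (y - c) ^ 2 := by
      set R : ℝ := 1 + |b| + ∑ c ∈ S, |c| with hR
      have hR0 : 0 ≤ ∑ c ∈ S, |c| := Finset.sum_nonneg fun _ _ => abs_nonneg _
      have hR1 : 1 ≤ R := by have := abs_nonneg b; linarith
      refine ⟨(R ^ 2) ^ S.card, by positivity, fun y c hy hc => ?_⟩
      rw [← Finset.mul_prod_erase _ _ hc, mul_comm]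
      refine mul_le_mul_of_nonneg_right ?_ (sq_nonneg _)
      have h10 : ∏ i ∈ S.erase c, (y - i) ^ 2 ≤ ∏ _i ∈ S.erase c, R ^ 2 := by
        refine Finset.prod_le_prod (fun _ _ => sq_nonneg _) fun i hi => ?_
        have hi1 : |i| ≤ ∑ c ∈ S, |c| :=
          Finset.single_le_sum (f := fun c : ℝ => |c|) (fun _ _ => abs_nonneg _)
            (Finset.mem_of_mem_erase hi)
        rw [sq_le_sq, abs_of_nonneg (by linarith : 0 ≤ R)]
        refine (abs_sub _ _).trans ?_
        have := le_abs_self b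
        linarith
      refine h10.trans ?_
      rw [Finset.prod_const]
      exact pow_le_pow_right₀ (by nlinarith) Finset.card_erase_le
    have hb2 : Bd fun v => (t v - -(m : ℝ) * vr σ ρ 0 v) ^ 2 := (hbt.sub (hbv.const_mul _)).sq
    have hb1 : Bd fun v => ∏ c ∈ S, (t v - c) ^ 2 := by
      obtain ⟨B, hB⟩ := hb2
      refine ⟨C * B, fun v => ?_⟩
      rw [abs_of_nonneg (Finset.prod_nonneg fun _ _ => sq_nonneg _)]
      refine (hC (t v) _ (hb v) (hval v)).trans (mul_le_mul_of_nonneg_left ?_ hC0)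
      exact (le_abs_self _).trans (hB v)
    have h10 := M_mono hN hV hb1 (hb2.const_mul C) fun v => hC (t v) _ (hb v) (hval v)
    rw [M_const_mul hN hV hb2, e1, mul_zero] at h10
    exact absurd (hS S) (not_lt.2 h10)

/-- **There is at most one exceptional representation.** -/
theorem exc2 {t : HeightOneSpectrum (𝓞 F) → ℝ} {b : ℝ} (hb : ∀ v, |t v| ≤ b)
    (ht2 : ∀ V : Ultrafilter ℝ, (V : Filter ℝ) ≤ 𝓝[>] 0 → M (nm F) V (fun v => t v ^ 2) ≤ 1)
    (hσ : ∀ v, IsFrob v (σ v)) {n n' : ℕ} {ρ : Representation ℂ (GK F) (Fin n → ℂ)}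
    (hρ : Open ρ) (hi : ρ.IsIrreducible) {ρ' : Representation ℂ (GK F) (Fin n' → ℂ)}
    (hρ' : Open ρ') (hi' : ρ'.IsIrreducible)
    {τ τ' : ℝ} {m m' : ℤ} (hm : m ≠ 0) (hm' : m' ≠ 0) {V : Ultrafilter ℝ}
    (hV : (V : Filter ℝ) ≤ 𝓝[>] 0)
    (hc : (M (nm F) V fun v => t v * vr σ ρ τ v) = -(m : ℝ))
    (hc' : (M (nm F) V fun v => t v * vr σ ρ' τ' v) = -(m' : ℝ)) :
    Nonempty (ρ.Equiv ρ') := by
  classical
  have hN := sysF F
  have hbt : Bd t := ⟨b, hb⟩
  obtain ⟨rfl, h1, h2, -, -⟩ := exc1 hb ht2 hσ hρ hi hm hV hc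
  obtain ⟨rfl, h1', ⟨h2'⟩, -, -⟩ := exc1 hb ht2 hσ hρ' hi' hm' hV hc'
  have h3 : (M (nm F) V fun v => vr σ ρ 0 v ^ 2) = ga ρ 0 ρ 0 := by
    rw [vr_sq]
    exact M_gram hρ 0 hρ 0 hσ hV
  have hmm : (m : ℝ) ^ 2 = 1 := by
    have : m ^ 2 = 1 := by rw [← sq_abs, h1]; norm_num
    exact_mod_cast this
  have h4 := M_cs hN hV hbt (bd_vr σ hρ 0)
  rw [hc, neg_sq, h3] at h4
  have hg0 : 0 ≤ M (nm F) V fun v => vr σ ρ 0 v ^ 2 :=
    M_nonneg hN hV (bd_vr σ hρ 0).sq fun v => sq_nonneg _
  rw [h3] at hg0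
  have h5 : (m : ℝ) ^ 2 ≤ ga ρ 0 ρ 0 := h4.trans (mul_le_of_le_one_left hg0 (ht2 V hV))
  have h6 := ((ga_self hi 0).2 (by rw [hmm] at h5; linarith)).2.2
  rw [h6] at h3
  obtain ⟨-, e2⟩ := extreme hN hV hbt (ht2 V hV) (bd_vr σ hρ 0) h3 (m := -(m : ℝ))
    (by rw [neg_sq, hmm]) hc
  have h7 := e2 _ (bd_vr σ hρ' 0)
  rw [hc', M_gram hρ 0 hρ' 0 hσ hV] at h7
  have h8 : ga ρ 0 ρ' 0 ≠ 0 := by
    intro h
    rw [h, mul_zero, neg_eq_zero] at h7
    exact hm' (by exact_mod_cast h7)
  unfold ga at h8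
  rw [if_pos rfl, if_pos (by simp)] at h8
  -- a map to `ρ'` from a map to the dual
  have h9 : Module.finrank ℂ (ρ.IntertwiningMap ρ') ≠ 0 := by
    by_contra hcon
    have h10 : Module.finrank ℂ (ρ.IntertwiningMap ρ'.dual) ≠ 0 := by
      intro h
      rw [hcon, h] at h8
      norm_num at h8
    have h11 : Module.finrank ℂ (ρ.IntertwiningMap ρ'.dual) =
        Module.finrank ℂ (ρ.IntertwiningMap ρ') := by
      refine LinearEquiv.finrank_eq
        { toFun := fun f => ⟨h2'.symm.toLinearEquiv.toLinearMap ∘ₗ f.toLinearMap, fun g => by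
            have h4 := f.isIntertwining' g
            have h5 := h2'.symm.isIntertwining' g
            refine LinearMap.ext fun v => ?_
            have h6 := congrArg (fun L => L v) h4
            have h7 := congrArg (fun L => L (f.toLinearMap v)) h5
            simp only [LinearMap.comp_apply] at h6 h7 ⊢
            rw [h6]
            exact h7⟩
          invFun := fun f => ⟨h2'.toLinearEquiv.toLinearMap ∘ₗ f.toLinearMap, fun g => by
            have h4 := f.isIntertwining' g
            have h5 := h2'.isIntertwining' g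
            refine LinearMap.ext fun v => ?_
            have h6 := congrArg (fun L => L v) h4
            have h7 := congrArg (fun L => L (f.toLinearMap v)) h5
            simp only [LinearMap.comp_apply] at h6 h7 ⊢
            rw [h6]
            exact h7⟩
          left_inv := fun f => by
            refine Representation.IntertwiningMap.toLinearMap_injective _ _ ?_
            refine LinearMap.ext fun v => ?_
            exact h2'.toLinearEquiv.apply_symm_apply _
          right_inv := fun f => by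
            refine Representation.IntertwiningMap.toLinearMap_injective _ _ ?_
            refine LinearMap.ext fun v => ?_
            exact h2'.toLinearEquiv.symm_apply_apply _
          map_add' := fun f g => by
            refine Representation.IntertwiningMap.toLinearMap_injective _ _ ?_
            refine LinearMap.ext fun v => ?_
            exact map_add h2'.symm.toLinearEquiv _ _
          map_smul' := fun c f => by
            refine Representation.IntertwiningMap.toLinearMap_injective _ _ ?_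
            refine LinearMap.ext fun v => ?_
            exact map_smul h2'.symm.toLinearEquiv _ _ }
    exact h10 (h11.trans hcon)
  by_contra hcon
  rw [not_nonempty_iff] at hcon
  exact h9 (finrank_hom_irr ρ ρ' hi hi' hcon)

end

end Pool.Agent.TH553.RS
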