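import Pool.Agent.TH553.RS.Artin

set_option autoImplicit false

/-!
# The Gram matrix of the characters with heights
-/

namespace Pool.Agent.TH553.RS

open Complex Filter Topology ComplexConjugate Pool.Agent.H341R2 NumberField IsDedekindDomain
  Pool.Agent.W401.Cheb Polynomial Pool.Agent.W540.BE

section

variable {F : Type} [Field F] [NumberField F]

/-- means of class functions, with heights -/
theorem M_class (U : Subgroup (GK F)) [U.Normal] [Finite (GK F ⧸ U)]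
    (hU : IsOpen (U : Set (GK F))) (ψ : GK F ⧸ U → ℂ) (hψ : ∀ a g, ψ (g * a * g⁻¹) = ψ a)
    {σ : HeightOneSpectrum (𝓞 F) → GK F} (hσ : ∀ v, IsFrob v (σ v)) {c : ℝ}
    (hc : (Nat.card (GK F ⧸ U) : ℂ)⁻¹ * ∑ᶠ q, ψ q = c) (τ : ℝ) :
    Tendsto (qt (nm F) fun v => (ψ (QuotientGroup.mk (σ v)) *
      ((nm F v : ℕ) : ℂ) ^ (-(τ * I))).re) (𝓝[>] 0) (𝓝 (if τ = 0 then c else 0)) := by
  have h1 := cheb_mean U hU ψ hψ σ hσ
  rw [hc] at h1
  obtain ⟨B, hB⟩ : ∃ B : ℝ, ∀ q, ‖ψ q‖ ≤ B := by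
    letI : Fintype (GK F ⧸ U) := Fintype.ofFinite _
    exact ⟨∑ q, ‖ψ q‖, fun q => Finset.single_le_sum (f := fun q => ‖ψ q‖)
      (fun _ _ => norm_nonneg _) (Finset.mem_univ q)⟩
  exact mean_edge (g := fun v => ψ (QuotientGroup.mk (σ v))) (fun v => hB _) c h1 τ

/-- the mean value of the product of two characters -/
theorem ortho3 {G : Type*} [Group G] (U : Subgroup G) [U.Normal] [Finite (G ⧸ U)]
    {V W : Type*} [AddCommGroup V] [Module ℂ V] [Module.Finite ℂ V] [AddCommGroup W] [Module ℂ W]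
    [Module.Finite ℂ W] (ρ : Representation ℂ G V) (h : ∀ u ∈ U, ρ u = 1)
    (σ : Representation ℂ G W) (h' : ∀ u ∈ U, σ u = 1) :
    (Nat.card (G ⧸ U) : ℂ)⁻¹ * ∑ᶠ q : G ⧸ U, (qrep U ρ h).character q *
      (qrep U σ h').character q⁻¹ = (Module.finrank ℂ (σ.IntertwiningMap ρ) : ℂ) := by
  classical
  letI : Fintype (G ⧸ U) := Fintype.ofFinite _
  have hne : (Nat.card (G ⧸ U) : ℂ) ≠ 0 := by
    have : Nat.card (G ⧸ U) ≠ 0 := Nat.card_pos.ne'
    exact_mod_cast this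
  letI : Invertible (Nat.card (G ⧸ U) : ℂ) := invertibleOfNonzero hne
  have h1 := Representation.card_inv_mul_sum_char_mul_char_eq_finrank (qrep U σ h') (qrep U ρ h)
  rw [finsum_eq_sum_of_fintype, h1, finrank_qrep]

/-- the pairing of two representations with heights -/
noncomputable def ga {n n' : ℕ} (ρ : Representation ℂ (GK F) (Fin n → ℂ)) (τ : ℝ)
    (ρ' : Representation ℂ (GK F) (Fin n' → ℂ)) (τ' : ℝ) : ℝ :=
  open scoped Classical in
  1 / 2 * (if τ = τ' then (Module.finrank ℂ (ρ.IntertwiningMap ρ') : ℝ) else 0) +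
    1 / 2 * (if τ = -τ' then (Module.finrank ℂ (ρ.IntertwiningMap ρ'.dual) : ℝ) else 0)

theorem char_qrep {G : Type*} [Group G] (U : Subgroup G) [U.Normal]
    {V : Type*} [AddCommGroup V] [Module ℂ V]
    (ρ : Representation ℂ G V) (h : ∀ u ∈ U, ρ u = 1) (g : G) :
    (qrep U ρ h).character (QuotientGroup.mk g) = ρ.character g := rfl

theorem gramA {n n' : ℕ} {ρ : Representation ℂ (GK F) (Fin n → ℂ)} (hρ : Open ρ) (τ : ℝ)
    {ρ' : Representation ℂ (GK F) (Fin n' → ℂ)} (hρ' : Open ρ') (τ' : ℝ)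
    {σ : HeightOneSpectrum (𝓞 F) → GK F} (hσ : ∀ v, IsFrob v (σ v)) :
    Tendsto (qt (nm F) fun v => vr σ ρ τ v * vr σ ρ' τ' v) (𝓝[>] 0) (𝓝 (ga ρ τ ρ' τ')) := by
  classical
  obtain ⟨U1, hn1, hf1, hU1, hm1⟩ := hρ.ker
  obtain ⟨U2, hn2, hf2, hU2, hm2⟩ := hρ'.ker
  set U := U1 ⊓ U2 with hUdef
  have hUo : IsOpen (U : Set (GK F)) := hU1.inter hU2
  haveI : U.Normal := inferInstance
  haveI hfin : Finite (GK F ⧸ U) := Subgroup.quotient_finite_of_isOpen U hUo
  have h1 : ∀ u ∈ U, ρ u = 1 := fun u hu => (hm1 u).1 hu.1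
  have h2 : ∀ u ∈ U, ρ' u = 1 := fun u hu => (hm2 u).1 hu.2
  have h2d : ∀ u ∈ U, ρ'.dual u = 1 := by
    intro u hu
    have h3 : ρ' u⁻¹ = 1 := h2 _ (U.inv_mem hu)
    refine LinearMap.ext fun φ => ?_
    rw [Representation.dual_apply, h3]
    rfl
  set ψ1 : GK F ⧸ U → ℂ := fun q => (qrep U ρ' h2).character q * (qrep U ρ h1).character q⁻¹
    with hψ1
  set ψ2 : GK F ⧸ U → ℂ := fun q => (qrep U ρ'.dual h2d).character q *
    (qrep U ρ h1).character q⁻¹ with hψ2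
  have hc1 : ∀ a g, ψ1 (g * a * g⁻¹) = ψ1 a := by
    intro a g
    rw [hψ1]
    simp only
    rw [show (g * a * g⁻¹)⁻¹ = g * a⁻¹ * g⁻¹ by group, Representation.char_conj,
      Representation.char_conj]
  have hc2 : ∀ a g, ψ2 (g * a * g⁻¹) = ψ2 a := by
    intro a g
    rw [hψ2]
    simp only
    rw [show (g * a * g⁻¹)⁻¹ = g * a⁻¹ * g⁻¹ by group, Representation.char_conj,
      Representation.char_conj]
  have m1 := M_class U hUo ψ1 hc1 hσ (c := (Module.finrank ℂ (ρ.IntertwiningMap ρ') : ℝ))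
    (by rw [hψ1]; simp only; rw [ortho3]; push_cast; rfl) (τ - τ')
  have m2 := M_class U hUo ψ2 hc2 hσ (c := (Module.finrank ℂ (ρ.IntertwiningMap ρ'.dual) : ℝ))
    (by rw [hψ2]; simp only; rw [ortho3]; push_cast; rfl) (τ + τ')
  have key : ∀ v, vr σ ρ τ v * vr σ ρ' τ' v =
      1 / 2 * (ψ1 (QuotientGroup.mk (σ v)) * ((nm F v : ℕ) : ℂ) ^ (-((τ - τ' : ℝ) * I))).re +
      1 / 2 * (ψ2 (QuotientGroup.mk (σ v)) * ((nm F v : ℕ) : ℂ) ^ (-((τ + τ' : ℝ) * I))).re := by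
    intro v
    have hN0 : ((nm F v : ℕ) : ℂ) ≠ 0 := by
      exact_mod_cast (nm_pos v).ne'
    have e1 : vc σ ρ τ v * conj (vc σ ρ' τ' v) =
        ψ1 (QuotientGroup.mk (σ v)) * ((nm F v : ℕ) : ℂ) ^ (-((τ - τ' : ℝ) * I)) := by
      rw [hψ1]
      simp only
      rw [← QuotientGroup.mk_inv, char_qrep, char_qrep]
      unfold vc
      rw [map_mul, conj_cpow_I (nm_pos v), char_conj_eq U ρ' h2]
      have e2 : ((nm F v : ℕ) : ℂ) ^ (-((τ - τ' : ℝ) * I)) =
          ((nm F v : ℕ) : ℂ) ^ (-(τ * I)) * ((nm F v : ℕ) : ℂ) ^ (τ' * I) := by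
        rw [← Complex.cpow_add _ _ hN0]
        congr 1
        push_cast
        ring
      rw [e2]
      ring
    have e3 : vc σ ρ τ v * vc σ ρ' τ' v =
        ψ2 (QuotientGroup.mk (σ v)) * ((nm F v : ℕ) : ℂ) ^ (-((τ + τ' : ℝ) * I)) := by
      rw [hψ2]
      simp only
      rw [← QuotientGroup.mk_inv, char_qrep, char_qrep, Representation.char_dual]
      unfold vc
      have e2 : ((nm F v : ℕ) : ℂ) ^ (-((τ + τ' : ℝ) * I)) =
          ((nm F v : ℕ) : ℂ) ^ (-(τ * I)) * ((nm F v : ℕ) : ℂ) ^ (-(τ' * I)) := by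
        rw [← Complex.cpow_add _ _ hN0]
        congr 1
        push_cast
        ring
      rw [e2]
      ring
    rw [← e1, ← e3]
    unfold vr
    simp only [Complex.mul_re, Complex.conj_re, Complex.conj_im]
    ring
  have hlim := (m1.const_mul (1 / 2)).add (m2.const_mul (1 / 2))
  have hval : 1 / 2 * (if τ - τ' = 0 then (Module.finrank ℂ (ρ.IntertwiningMap ρ') : ℝ) else 0) +
      1 / 2 * (if τ + τ' = 0 then (Module.finrank ℂ (ρ.IntertwiningMap ρ'.dual) : ℝ) else 0) =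
      ga ρ τ ρ' τ' := by
    unfold ga
    simp only [sub_eq_zero, add_eq_zero_iff_eq_neg]
  rw [hval] at hlim
  refine hlim.congr' ?_
  obtain ⟨B1, hB1⟩ : ∃ B : ℝ, ∀ q, ‖ψ1 q‖ ≤ B := by
    letI : Fintype (GK F ⧸ U) := Fintype.ofFinite _
    exact ⟨∑ q, ‖ψ1 q‖, fun q => Finset.single_le_sum (f := fun q => ‖ψ1 q‖)
      (fun _ _ => norm_nonneg _) (Finset.mem_univ q)⟩
  obtain ⟨B2, hB2⟩ : ∃ B : ℝ, ∀ q, ‖ψ2 q‖ ≤ B := by
    letI : Fintype (GK F ⧸ U) := Fintype.ofFinite _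
    exact ⟨∑ q, ‖ψ2 q‖, fun q => Finset.single_le_sum (f := fun q => ‖ψ2 q‖)
      (fun _ _ => norm_nonneg _) (Finset.mem_univ q)⟩
  filter_upwards [self_mem_nhdsWithin] with ε hε
  have hε' : (0 : ℝ) < ε := hε
  have hb1 : ∀ v, |1 / 2 * (ψ1 (QuotientGroup.mk (σ v)) *
      ((nm F v : ℕ) : ℂ) ^ (-((τ - τ' : ℝ) * I))).re| ≤ 1 / 2 * B1 := by
    intro v
    rw [abs_mul, abs_of_pos (by norm_num : (0 : ℝ) < 1 / 2)]
    refine mul_le_mul_of_nonneg_left ?_ (by norm_num)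
    refine (Complex.abs_re_le_norm _).trans ?_
    rw [norm_mul, norm_cpow_I (nm_pos v), mul_one]
    exact hB1 _
  have hb2 : ∀ v, |1 / 2 * (ψ2 (QuotientGroup.mk (σ v)) *
      ((nm F v : ℕ) : ℂ) ^ (-((τ + τ' : ℝ) * I))).re| ≤ 1 / 2 * B2 := by
    intro v
    rw [abs_mul, abs_of_pos (by norm_num : (0 : ℝ) < 1 / 2)]
    refine mul_le_mul_of_nonneg_left ?_ (by norm_num)
    refine (Complex.abs_re_le_norm _).trans ?_
    rw [norm_mul, norm_cpow_I (nm_pos v), mul_one]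
    exact hB2 _
  unfold qt
  have e : (fun v => vr σ ρ τ v * vr σ ρ' τ' v) = fun v =>
      1 / 2 * (ψ1 (QuotientGroup.mk (σ v)) * ((nm F v : ℕ) : ℂ) ^ (-((τ - τ' : ℝ) * I))).re +
      1 / 2 * (ψ2 (QuotientGroup.mk (σ v)) * ((nm F v : ℕ) : ℂ) ^ (-((τ + τ' : ℝ) * I))).re :=
    funext key
  rw [e, EP_add normSys hε' hb1 hb2, EP_const_mul, EP_const_mul]
  ring

/-- an irreducible representation and a nonzero map to a representation of the same dimension -/
theorem equiv_of_hom {G : Type*} [Group G] {V W : Type*} [AddCommGroup V] [Module ℂ V]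
    [AddCommGroup W] [Module ℂ W] [Module.Finite ℂ V] [Module.Finite ℂ W]
    {ρ : Representation ℂ G V} (hi : ρ.IsIrreducible)
    {σ : Representation ℂ G W} (hd : Module.finrank ℂ V = Module.finrank ℂ W)
    (h : Module.finrank ℂ (ρ.IntertwiningMap σ) ≠ 0) : Nonempty (ρ.Equiv σ) := by
  have h1 : Nontrivial (ρ.IntertwiningMap σ) := by
    by_contra hcon
    rw [not_nontrivial_iff_subsingleton] at hcon
    exact h Module.finrank_zero_of_subsingleton
  obtain ⟨f, hf⟩ := exists_ne (0 : ρ.IntertwiningMap σ)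
  have hinj : Function.Injective f.toLinearMap := by
    rw [← LinearMap.ker_eq_bot]
    let S : Subrepresentation ρ := ⟨LinearMap.ker f.toLinearMap, fun g v hv => by
      rw [LinearMap.mem_ker] at hv ⊢
      have h2 := f.isIntertwining' g
      have h3 := congrArg (fun L => L v) h2
      simp only [LinearMap.comp_apply] at h3
      rw [h3, hv, map_zero]⟩
    have h4 : S = ⊥ ∨ S = ⊤ := by
      have := hi
      exact IsSimpleOrder.eq_bot_or_eq_top S
    rcases h4 with h4 | h4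
    · exact congrArg Subrepresentation.toSubmodule h4
    · exfalso
      apply hf
      have h5 : LinearMap.ker f.toLinearMap = ⊤ := congrArg Subrepresentation.toSubmodule h4
      have h6 : f.toLinearMap = 0 := LinearMap.ker_eq_top.1 h5
      exact Representation.IntertwiningMap.toLinearMap_injective _ _ h6
  have hbij : Function.Bijective f.toLinearMap :=
    ⟨hinj, (LinearMap.injective_iff_surjective_of_finrank_eq_finrank hd).1 hinj⟩
  exact ⟨{ LinearEquiv.ofBijective f.toLinearMap hbij with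
    isIntertwining' := fun g => f.isIntertwining' g }⟩

end

end Pool.Agent.TH553.RS
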