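import Pool.Agent.TH553.RS.Bessel
import Pool.Agent.W540.BE.Core3

set_option autoImplicit false

/-!
# Sizes of Artin twists and correlations
-/

namespace Pool.Agent.TH553.RS

open Complex Filter Topology ComplexConjugate Pool.Agent.H341R2 NumberField IsDedekindDomain
  Pool.Agent.W401.Cheb Polynomial Pool.Agent.W540.BE

section

variable {F : Type} [Field F] [NumberField F]

theorem sysF (F : Type) [Field F] [NumberField F] : Sys (nm F) := ⟨normSys, EP_one F⟩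

theorem nm_pos (v : HeightOneSpectrum (𝓞 F)) : 0 < nm F v := by
  have := two_le_nm v
  omega

/-- `q_v^{-iτ} χ(σ_v⁻¹)` -/
noncomputable def vc {n : ℕ} (σ : HeightOneSpectrum (𝓞 F) → GK F)
    (ρ : Representation ℂ (GK F) (Fin n → ℂ)) (τ : ℝ) (v : HeightOneSpectrum (𝓞 F)) : ℂ :=
  ((nm F v : ℕ) : ℂ) ^ (-(τ * I)) * ρ.character (σ v)⁻¹

/-- the real part -/
noncomputable def vr {n : ℕ} (σ : HeightOneSpectrum (𝓞 F) → GK F)
    (ρ : Representation ℂ (GK F) (Fin n → ℂ)) (τ : ℝ) (v : HeightOneSpectrum (𝓞 F)) : ℝ :=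
  (vc σ ρ τ v).re

/-- `ρ` is trivial on an open subgroup -/
def Open {n : ℕ} (ρ : Representation ℂ (GK F) (Fin n → ℂ)) : Prop :=
  ∃ U : Subgroup (GK F), IsOpen (U : Set (GK F)) ∧ ∀ u ∈ U, ρ u = 1

theorem Open.ker {n : ℕ} {ρ : Representation ℂ (GK F) (Fin n → ℂ)} (h : Open ρ) :
    ∃ (U : Subgroup (GK F)) (_ : U.Normal) (_ : Finite (GK F ⧸ U)),
      IsOpen (U : Set (GK F)) ∧ ∀ g, g ∈ U ↔ ρ g = 1 := by
  obtain ⟨V, hV, hVρ⟩ := h
  have h1 : V ≤ (ρ : GK F →* _).ker := fun u hu => hVρ u hu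
  have h2 : IsOpen ((ρ : GK F →* _).ker : Set (GK F)) := Subgroup.isOpen_mono h1 hV
  exact ⟨(ρ : GK F →* _).ker, inferInstance, Subgroup.quotient_finite_of_isOpen _ h2, h2,
    fun g => MonoidHom.mem_ker⟩

theorem norm_vc {n : ℕ} (σ : HeightOneSpectrum (𝓞 F) → GK F)
    {ρ : Representation ℂ (GK F) (Fin n → ℂ)} (h : Open ρ) (τ : ℝ) (v : HeightOneSpectrum (𝓞 F)) :
    ‖vc σ ρ τ v‖ ≤ n := by
  obtain ⟨U, _, _, hU, hρ⟩ := h.ker
  unfold vc
  rw [norm_mul, norm_cpow_I (nm_pos v), one_mul]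
  exact norm_char_le U ρ (fun u hu => (hρ u).1 hu) _

theorem abs_vr {n : ℕ} (σ : HeightOneSpectrum (𝓞 F) → GK F)
    {ρ : Representation ℂ (GK F) (Fin n → ℂ)} (h : Open ρ) (τ : ℝ) (v : HeightOneSpectrum (𝓞 F)) :
    |vr σ ρ τ v| ≤ n := (Complex.abs_re_le_norm _).trans (norm_vc σ h τ v)

theorem bd_vr {n : ℕ} (σ : HeightOneSpectrum (𝓞 F) → GK F)
    {ρ : Representation ℂ (GK F) (Fin n → ℂ)} (h : Open ρ) (τ : ℝ) : Bd (vr σ ρ τ) :=
  ⟨n, abs_vr σ h τ⟩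

/-- the size of the Euler product and the correlation -/
theorem size_corr (b : ℕ) (w : ℝ) (α : HeightOneSpectrum (𝓞 F) → Fin b → ℂ)
    (hα : ∀ᶠ v in cofinite, ∀ j, ‖α v j‖ = (nm F v : ℝ) ^ w)
    {t : HeightOneSpectrum (𝓞 F) → ℝ} (htb : Bd t)
    (ht : ∀ᶠ v in cofinite, (∑ j, α v j) * ((nm F v : ℕ) : ℂ) ^ (-(w : ℂ)) = t v)
    {n : ℕ} {ρ : Representation ℂ (GK F) (Fin n → ℂ)} (hopen : Open ρ) (τ : ℝ)
    (B : HeightOneSpectrum (𝓞 F) → ℂ[X])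
    (hB : ∀ᶠ v in cofinite, ∀ σ : GK F, IsFrob v σ → ∀ z : ℂ,
      (B v).eval z = ∏ j, LinearMap.det (1 - (α v j * z) • ρ σ⁻¹))
    (hB0 : ∀ v, (B v).eval (((nm F v : ℕ) : ℂ) ^ (-(w + 1 + τ * I : ℂ))) ≠ 0)
    (L : ℂ → ℂ)
    (hL : ∀ s : ℂ, w + 1 < s.re → L s = ∏' v, ((B v).eval (((nm F v : ℕ) : ℂ) ^ (-s)))⁻¹)
    (σ : HeightOneSpectrum (𝓞 F) → GK F) (hσ : ∀ v, IsFrob v (σ v)) :
    (∀ᶠ ε : ℝ in 𝓝[>] 0, L (w + 1 + τ * I + ε) ≠ 0) ∧
    Tendsto (fun ε : ℝ => qt (nm F) (fun v => t v * vr σ ρ τ v) ε -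
      Real.log ‖L (w + 1 + τ * I + ε)‖ / Real.log (1 / ε)) (𝓝[>] 0) (𝓝 0) := by
  classical
  obtain ⟨U, _, hfinQ, hUopen, hUmem⟩ := hopen.ker
  have hUρ : ∀ u ∈ U, ρ u = 1 := fun u hu => (hUmem u).1 hu
  have hN : NormSys (nm F) := normSys
  obtain ⟨bt, hbt⟩ := htb
  obtain ⟨p0⟩ : Nonempty (HeightOneSpectrum (𝓞 F)) := by
    obtain ⟨M, hM⟩ := Ideal.exists_maximal (𝓞 F)
    exact ⟨⟨M, hM.isPrime, Ring.ne_bot_of_isMaximal_of_not_isField hM
      (RingOfIntegers.not_isField F)⟩⟩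
  have hbt0 : 0 ≤ bt := (abs_nonneg _).trans (hbt p0)
  set Good : HeightOneSpectrum (𝓞 F) → Prop := fun v => ((∀ j, ‖α v j‖ = (nm F v : ℝ) ^ w) ∧
    (∑ j, α v j) * ((nm F v : ℕ) : ℂ) ^ (-(w : ℂ)) = t v) ∧
      ∀ σ : GK F, IsFrob v σ → ∀ z : ℂ,
        (B v).eval z = ∏ j, LinearMap.det (1 - (α v j * z) • ρ σ⁻¹) with hGood
  have hfin : {v | ¬ Good v}.Finite := by
    have := (hα.and ht).and hB
    rwa [Filter.eventually_cofinite] at this
  have hGex : ∀ (ε : ℝ) (v : HeightOneSpectrum (𝓞 F)), ∃ G : ℂ, 0 < ε → Good v →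
      cexp G = ((B v).eval (((nm F v : ℕ) : ℂ) ^ (-(w + 1 + τ * I + ε : ℂ))))⁻¹ ∧
      ‖G - ((t v : ℂ) * vc σ ρ τ v) * ((nm F v : ℝ) ^ (-(1 + ε)) : ℝ)‖ ≤
        (b * n : ℝ) * (nm F v : ℝ) ^ (-2 : ℝ) := by
    intro ε v
    by_cases h : 0 < ε ∧ Good v
    · obtain ⟨G, hG1, hG2⟩ := local_factor w (nm F v) (two_le_nm v) (α v) h.2.1.1
        (ρ (σ v)⁻¹) (m := Nat.card (GK F ⧸ U)) Nat.card_pos
        (rho_pow U ρ hUρ _) τ ε h.1
      refine ⟨G, fun _ _ => ⟨?_, ?_⟩⟩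
      · rw [hG1, h.2.2 (σ v) (hσ v)]
      · rw [h.2.1.2] at hG2
        exact hG2
    · exact ⟨0, fun h1 h2 => absurd ⟨h1, h2⟩ h⟩
  choose G hG using hGex
  set a : HeightOneSpectrum (𝓞 F) → ℂ := fun v => if Good v then (t v : ℂ) * vc σ ρ τ v else 0
    with ha
  have hprod : ∀ v, ‖(t v : ℂ) * vc σ ρ τ v‖ ≤ bt * n := by
    intro v
    rw [norm_mul, Complex.norm_real, Real.norm_eq_abs]
    exact mul_le_mul (hbt v) (norm_vc σ hopen τ v) (norm_nonneg _) hbt0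
  have hab : ∀ v, ‖a v‖ ≤ bt * n := by
    intro v
    rw [ha]
    simp only
    split_ifs
    · exact hprod v
    · rw [norm_zero]; positivity
  have ha0 : ∀ v, ¬ Good v → a v = 0 := by
    intro v hv
    rw [ha]
    simp only
    rw [if_neg hv]
  obtain ⟨C', hC'⟩ := sizeP hN (Good := Good) hfin B (w + 1 + τ * I)
    (fun v _ => hB0 v) a hab ha0 G (C := (b * n : ℝ))
    (by
      intro ε hε v hv
      have h1 : a v = (t v : ℂ) * vc σ ρ τ v := by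
        rw [ha]
        simp only
        rw [if_pos hv]
      rw [h1]
      exact (hG ε v hε hv).2)
    (L := fun ε => L (w + 1 + τ * I + ε))
    (by
      intro ε hε
      rw [hL _ (by simp [hε])]
      refine tprod_congr fun v => ?_
      split_ifs with hv
      · rw [(hG ε v hε hv).1]
      · rfl)
  have hre : ∀ v, ((t v : ℂ) * vc σ ρ τ v).re = t v * vr σ ρ τ v := by
    intro v
    rw [Complex.re_ofReal_mul]
    rfl
  -- the mean value of the coefficients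
  set r : HeightOneSpectrum (𝓞 F) → ℝ := fun v => t v * vr σ ρ τ v - (a v).re with hr
  have hr0 : ∀ v, v ∉ hfin.toFinset → r v = 0 := by
    intro v hv
    rw [Set.Finite.mem_toFinset, Set.mem_ofPred_eq, not_not] at hv
    rw [hr, ha]
    simp only
    rw [if_pos hv, hre, sub_self]
  have hrb : ∀ v, |r v| ≤ 2 * (bt * n) := by
    intro v
    rw [hr]
    simp only
    have h1 : |t v * vr σ ρ τ v| ≤ bt * n := by
      rw [← hre]
      exact (Complex.abs_re_le_norm _).trans (hprod v)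
    have h2 : |(a v).re| ≤ bt * n := (Complex.abs_re_le_norm _).trans (hab v)
    rw [abs_le] at *
    constructor <;> linarith [h1.1, h1.2, h2.1, h2.2]
  have hsplit : ∀ ε : ℝ, 0 < ε → (EP (nm F) ε fun v => t v * vr σ ρ τ v) =
      (EP (nm F) ε fun v => (a v).re) + EP (nm F) ε r := by
    intro ε hε
    rw [← EP_add hN hε (B := bt * n) (B' := 2 * (bt * n))
      (fun v => (Complex.abs_re_le_norm _).trans (hab v)) hrb]
    congr 1
    funext v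
    rw [hr]
    ring
  have hk : ∀ᶠ ε : ℝ in 𝓝[>] 0, L (w + 1 + τ * I + ε) ≠ 0 ∧
      |(EP (nm F) ε fun v => t v * vr σ ρ τ v) - Real.log ‖L (w + 1 + τ * I + ε)‖| ≤
        C' + hfin.toFinset.card * (2 * (bt * n)) := by
    filter_upwards [hC', self_mem_nhdsWithin] with ε h1 h2
    have hε : (0 : ℝ) < ε := h2
    refine ⟨h1.1, ?_⟩
    rw [hsplit ε hε]
    have h4 := EP_finsupp hN hfin.toFinset r hr0 _ hrb hε
    have h5 : (EP (nm F) ε fun v => (a v).re) + EP (nm F) ε r -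
        Real.log ‖L (w + 1 + τ * I + ε)‖ =
        ((EP (nm F) ε fun v => (a v).re) - Real.log ‖L (w + 1 + τ * I + ε)‖) +
          EP (nm F) ε r := by ring
    rw [h5]
    exact (abs_add_le _ _).trans (add_le_add h1.2 h4)
  have hEP1 : ∀ᶠ ε : ℝ in 𝓝[>] 0, (EP (nm F) ε fun _ => 1) ≤ 2 * lam ε := by
    filter_upwards [(EP_one F).eventually_lt_const (by norm_num : (1 : ℝ) < 2),
      lam_tendsto.eventually_gt_atTop 0] with ε h1 h2
    rw [div_lt_iff₀ h2] at h1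
    exact h1.le
  have hylam : ∀ᶠ ε : ℝ in 𝓝[>] 0,
      |EP (nm F) ε fun v => t v * vr σ ρ τ v| ≤ (2 * (bt * n) : ℝ) * lam ε := by
    filter_upwards [hEP1, self_mem_nhdsWithin] with ε h1 h2
    have h3 := abs_EP_le hN (φ := fun v => t v * vr σ ρ τ v) (B := bt * n) (fun v => by
      rw [← hre]
      exact (Complex.abs_re_le_norm _).trans (hprod v)) (show 0 < ε from h2)
    refine h3.trans ?_
    calc (bt * n : ℝ) * EP (nm F) ε (fun _ => 1) ≤ (bt * n : ℝ) * (2 * lam ε) :=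
          mul_le_mul_of_nonneg_left h1 (by positivity)
      _ = _ := by ring
  refine ⟨hk.mono fun _ h => h.1, ?_⟩
  exact size_compare hylam (hk.mono fun _ h => h.2)

end

end Pool.Agent.TH553.RS
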