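import Pool.Agent.W353.TP.Inum

set_option autoImplicit false

/-!
# Intertwining numbers with a field containing the closure
-/

namespace Pool.Agent.TH553.RS

open NumberField Pool.Agent.W353.TP
open scoped TensorProduct

section
variable {K : Type} [Field K] [NumberField K]

/-- the intertwining number with a normal field containing the closure of `F(√D)` -/
theorem inum_split (M : IntermediateField K (Om K)) [NumberField M] [Normal K M]
    {F : Type} [Field F] [NumberField F] [Algebra K F] (j : F →ₐ[K] Om K) (hj : j.fieldRange ≤ M)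
    {D : F} {s : Om K} (hs : s ∈ M) (hsD : s ^ 2 = j D) :
    inum K M F 1 D = Module.finrank K F := by
  have hσM : ∀ σ : F →ₐ[K] Om K, σ.fieldRange ≤ M ∧ ∃ y ∈ M, y ^ 2 = σ D := by
    intro σ
    obtain ⟨ρ, hρ⟩ := exists_rho j σ
    constructor
    · rintro x ⟨z, rfl⟩
      change σ z ∈ M
      rw [← hρ]
      exact normal_mem M ρ (hj ⟨z, rfl⟩)
    · exact ⟨ρ s, normal_mem M ρ hs, by rw [← map_pow, hsD, hρ]⟩
  let i : M →ₐ[K] Om K := M.val
  have hi : i.fieldRange = M := M.fieldRange_val
  unfold inum
  have e : (F →ₐ[K] Om K) ≃ {m : MaximalSpectrum (M ⊗[K] F) //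
      IsSquare (Ideal.Quotient.mk m.asIdeal ((1 : M) ⊗ₜ[K] D))} := by
    refine Equiv.ofBijective (fun σ => ⟨mx M F i σ, (isSquare_iff i σ 1 D).2 ?_⟩) ⟨?_, ?_⟩
    · obtain ⟨y, hy, hy2⟩ := (hσM σ).2
      refine ⟨y, ?_, by rw [map_one, one_mul, hy2]⟩
      rw [hi]
      exact (le_sup_left : M ≤ M ⊔ σ.fieldRange) hy
    · intro σ σ' h
      have h1 : mx M F i σ = mx M F i σ' := Subtype.ext_iff.1 h
      obtain ⟨g, hg1, hg2⟩ := (mx_eq_iff i σ σ').1 h1
      apply AlgHom.ext
      intro x
      rw [← hg2 x]
      have h2 : σ x ∈ M := (hσM σ).1 ⟨x, rfl⟩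
      exact (hg1 ⟨σ x, h2⟩).symm
    · rintro ⟨m, hm⟩
      obtain ⟨σ, rfl⟩ := mx_surjective i m
      exact ⟨σ, rfl⟩
  rw [← Nat.card_congr e, Nat.card_eq_fintype_card]
  exact AlgHom.card K F (Om K)

/-- there is a normal number field containing the closures of finitely many fields `F_k(√d_k)` -/
theorem exists_split {κ : Type*} (S : Finset κ) (F : κ → Type) [∀ k, Field (F k)]
    [∀ k, NumberField (F k)] [∀ k, Algebra K (F k)] (D : ∀ k, F k) :
    ∃ (M : Type) (_ : Field M) (_ : NumberField M) (_ : Algebra K M),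
      (∀ k ∈ S, inum K M (F k) 1 (D k) = Module.finrank K (F k)) ∧ inum K M K 1 1 = 1 := by
  classical
  have hj : ∀ k, ∃ (j : F k →ₐ[K] Om K) (s : Om K), s ^ 2 = j (D k) := by
    intro k
    have : Algebra.IsAlgebraic K (F k) := by
      have : FiniteDimensional K (F k) := Module.Finite.of_restrictScalars_finite ℚ K (F k)
      exact Algebra.IsAlgebraic.of_finite K (F k)
    let j : F k →ₐ[K] Om K := IsAlgClosed.lift
    obtain ⟨s, hs⟩ := IsAlgClosed.exists_pow_nat_eq (j (D k)) (n := 2) (by norm_num)
    exact ⟨j, s, hs⟩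
  choose j s hs using hj
  let A : IntermediateField K (Om K) := ⨆ k ∈ S, ((j k).fieldRange ⊔ IntermediateField.adjoin K {s k})
  have hAfin : FiniteDimensional K A := by
    have h1 : ∀ k, FiniteDimensional K
        ((j k).fieldRange ⊔ IntermediateField.adjoin K {s k} : IntermediateField K (Om K)) := by
      intro k
      have h2 : FiniteDimensional K (F k) := Module.Finite.of_restrictScalars_finite ℚ K (F k)
      have h3 : FiniteDimensional K (j k).fieldRange := by
        exact Module.Finite.equiv (AlgEquiv.ofInjectiveField (j k)).toLinearEquiv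
      have h4 : FiniteDimensional K (IntermediateField.adjoin K {s k}) :=
        IntermediateField.adjoin.finiteDimensional (Algebra.IsIntegral.isIntegral _)
      infer_instance
    exact IntermediateField.finiteDimensional_iSup_of_finset (s := S)
      (t := fun k => (j k).fieldRange ⊔ IntermediateField.adjoin K {s k})
  have hA : ∀ k ∈ S, (j k).fieldRange ≤ A ∧ s k ∈ A := by
    intro k hk
    have h1 : (j k).fieldRange ⊔ IntermediateField.adjoin K {s k} ≤ A :=
      le_iSup₂_of_le k hk le_rfl
    exact ⟨le_sup_left.trans h1, h1 ((le_sup_right : IntermediateField.adjoin K {s k} ≤ _)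
      (IntermediateField.mem_adjoin_simple_self K (s k)))⟩
  let M : IntermediateField K (Om K) := IntermediateField.normalClosure K A (Om K)
  have hAM : A ≤ M := A.le_normalClosure
  have hMn : Normal K M := inferInstance
  have hMf : FiniteDimensional K M := inferInstance
  have hMnf : NumberField M := by
    have : Module.Finite ℚ M := Module.Finite.trans K M
    exact ⟨⟩
  refine ⟨M, inferInstance, hMnf, inferInstance, fun k hk => ?_, ?_⟩
  · exact inum_split M (j k) ((hA k hk).1.trans hAM) (hAM (hA k hk).2) (hs k)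
  · rw [inum_split M (Algebra.ofId K (Om K)) ?_ (D := (1 : K)) (s := 1) (one_mem _) (by simp),
      Module.finrank_self]
    rintro x ⟨z, rfl⟩
    exact M.algebraMap_mem z

end

end Pool.Agent.TH553.RS
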