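import Pool.Agent.TH553.RS.L2
import Pool.Agent.TH553.RS.Split

set_option autoImplicit false

/-!
# Characters of norm one
-/

namespace Pool.Agent.TH553.RS

open Complex Filter Topology ComplexConjugate NumberField IsDedekindDomain Pool.Agent.H341R2
  Asymptotics Pool.Agent.W353.TP Pool.Agent.W353.AB CongruenceSubgroup
open Pool.Agent.TH941 (Hecke)
open Pool.Agent.W165.RS (ac)
open Pool.Agent.W540.BE (abel_mean)
open scoped MatrixGroups

/-! ### The law of Sato and Tate -/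

/-- the law of Sato and Tate -/
def SatoTate (W : WeierstrassCurve ℤ) : Prop :=
  ∀ g : ℝ → ℝ, Continuous g → Tendsto (fun n : ℕ =>
    (∑ p ∈ (Finset.range (n + 1)).filter Nat.Prime, g (tr W p / Real.sqrt p)) /
      (Nat.primeCounting n : ℝ)) atTop
    (𝓝 (2 / Real.pi * ∫ θ in (0 : ℝ)..Real.pi, g (2 * Real.cos θ) * Real.sin θ ^ 2))

theorem tr_bd (W : WeierstrassCurve ℤ) (p : Nat.Primes) (h : ¬ ((p : ℕ) : ℤ) ∣ 6 * W.Δ) :
    |(tr W p : ℝ) / Real.sqrt (p : ℕ)| ≤ 2 := by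
  have hp : Fintype.card (𝓞 ℚ →+* ZMod (p : ℕ)) = 1 := hom_unique p
  obtain ⟨u⟩ : Nonempty (𝓞 ℚ →+* ZMod (p : ℕ)) := Fintype.card_pos_iff.1 (by rw [hp]; norm_num)
  rw [← tq_eq W ⟨p, u⟩ h]
  exact abs_tq _ _ _

/-- values of a continuous function at the normalised traces are bounded -/
theorem g_bdd (W : WeierstrassCurve ℤ) (hΔ : W.Δ ≠ 0) {g : ℝ → ℝ} (hg : Continuous g) :
    ∃ B : ℝ, ∀ p : Nat.Primes, |g (tr W p / Real.sqrt (p : ℕ))| ≤ B := by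
  obtain ⟨B1, hB1⟩ := (isCompact_Icc (a := (-2 : ℝ)) (b := 2)).exists_bound_of_continuousOn
    hg.continuousOn
  set S := (fin_dvd (m := 6 * W.Δ) (mul_ne_zero (by norm_num) hΔ)).toFinset with hS
  refine ⟨|B1| + ∑ p ∈ S, |g (tr W p / Real.sqrt (p : ℕ))|, fun p => ?_⟩
  have h0 : 0 ≤ ∑ p ∈ S, |g (tr W p / Real.sqrt (p : ℕ))| := Finset.sum_nonneg fun _ _ => abs_nonneg _
  by_cases hp : ((p : ℕ) : ℤ) ∣ 6 * W.Δ
  · have h1 : p ∈ S := by
      rw [hS, Set.Finite.mem_toFinset]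
      exact hp
    have h2 := Finset.single_le_sum (f := fun p : Nat.Primes => |g (tr W p / Real.sqrt (p : ℕ))|)
      (fun _ _ => abs_nonneg _) h1
    have h3 := abs_nonneg B1
    have h2' : |g (tr W p / Real.sqrt (p : ℕ))| ≤ ∑ p ∈ S, |g (tr W p / Real.sqrt (p : ℕ))| := h2
    linarith
  · have h1 := hB1 _ (abs_le.1 (tr_bd W p hp))
    rw [Real.norm_eq_abs] at h1
    have h3 := le_abs_self B1
    linarith

theorem E_of_mean {k : ℕ → ℝ} {B : ℝ} (hB : ∀ p : Nat.Primes, |k p| ≤ B) {c : ℝ}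
    (h : Tendsto (fun n : ℕ => (∑ p ∈ (Finset.range (n + 1)).filter Nat.Prime, k p) /
      (Nat.primeCounting n : ℝ)) atTop (𝓝 c)) :
    Tendsto (fun ε => E ε (fun p => k (p : ℕ)) / lam ε) (𝓝[>] 0) (𝓝 c) := by
  classical
  set G : ℕ → ℂ := fun n => if n.Prime then ((k n : ℝ) : ℂ) else 0 with hG
  have hB0 : 0 ≤ B := (abs_nonneg _).trans (hB ⟨2, Nat.prime_two⟩)
  have hGb : ∀ n, ‖G n‖ ≤ B := by
    intro n
    rw [hG]
    simp only
    split_ifs with hn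
    · rw [Complex.norm_real, Real.norm_eq_abs]
      exact hB ⟨n, hn⟩
    · rw [norm_zero]
      exact hB0
  have hS : Tendsto (fun n : ℕ => (∑ j ∈ Finset.Icc 1 n, G j) / (Nat.primeCounting n : ℂ)) atTop
      (𝓝 (c : ℂ)) := by
    refine ((Complex.continuous_ofReal.tendsto _).comp h).congr fun n => ?_
    simp only [Function.comp_apply]
    push_cast
    congr 1
    rw [Finset.sum_filter]
    have h1 : Finset.range (n + 1) = insert 0 (Finset.Icc 1 n) := by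
      ext j
      simp only [Finset.mem_range, Finset.mem_insert, Finset.mem_Icc]
      omega
    rw [h1, Finset.sum_insert (by simp), if_neg Nat.not_prime_zero, zero_add]
  have h1 := abel_mean G B hGb c hS 0
  rw [if_pos rfl] at h1
  refine h1.congr' ?_
  filter_upwards [self_mem_nhdsWithin] with ε hε
  have hε' : (0 : ℝ) < ε := hε
  congr 1
  have e1 : LSeries G (1 + ε + ((0 : ℝ) : ℂ) * I) =
      ((∑' n : ℕ, (if n.Prime then k n else 0) * (n : ℝ) ^ (-(1 + ε)) : ℝ) : ℂ) := by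
    rw [Complex.ofReal_tsum]
    unfold LSeries
    refine tsum_congr fun n => ?_
    rcases Nat.eq_zero_or_pos n with rfl | hn
    · rw [LSeries.term_zero, if_neg Nat.not_prime_zero]
      simp
    · rw [LSeries.term_of_ne_zero hn.ne', hG]
      have e2 : ((n : ℂ) ^ (1 + ε + ((0 : ℝ) : ℂ) * I)) = (((n : ℝ) ^ (1 + ε) : ℝ) : ℂ) := by
        rw [Complex.ofReal_cpow (Nat.cast_nonneg n)]
        push_cast
        ring_nf
      simp only
      rw [e2, Real.rpow_neg (Nat.cast_nonneg n), div_eq_mul_inv]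
      split_ifs
      · push_cast
        rfl
      · simp
  rw [e1, Complex.ofReal_re]
  have h2 := tsum_subtype {n : ℕ | n.Prime} fun n : ℕ => k n * (n : ℝ) ^ (-(1 + ε))
  refine Eq.trans ?_ h2.symm
  refine tsum_congr fun n => ?_
  unfold Set.indicator
  by_cases h : n.Prime
  · rw [if_pos h, if_pos (show n ∈ {n : ℕ | n.Prime} from h)]
  · rw [if_neg h, if_neg (show n ∉ {n : ℕ | n.Prime} from h), zero_mul]

/-- means of continuous functions -/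
theorem ST_mean (W : WeierstrassCurve ℤ) (hΔ : W.Δ ≠ 0) {g : ℝ → ℝ} (hg : Continuous g) {c : ℝ}
    (h : Tendsto (fun n : ℕ => (∑ p ∈ (Finset.range (n + 1)).filter Nat.Prime,
      g (tr W p / Real.sqrt p)) / (Nat.primeCounting n : ℝ)) atTop (𝓝 c))
    {U : Ultrafilter ℝ} (hU : (U : Filter ℝ) ≤ 𝓝[>] 0) :
    M (NH ℚ) U (fun x => g (tq (cP W) (cQ W) x)) = c := by
  obtain ⟨B, hB⟩ := g_bdd W hΔ hg
  have hE := E_of_mean (k := fun n => g (tr W n / Real.sqrt n)) hB h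
  have hb : Bd fun x : HX ℚ => g (tr W x.1 / Real.sqrt (x.1 : ℕ)) := ⟨B, fun x => hB x.1⟩
  have h1 : M (NH ℚ) U (fun x => g (tr W x.1 / Real.sqrt (x.1 : ℕ))) = c := by
    refine M_of_tendsto hU (hE.congr' ?_)
    filter_upwards [self_mem_nhdsWithin] with ε hε
    unfold qt
    rw [EH_norm (show (0 : ℝ) < ε from hε) (h := fun p => g (tr W p / Real.sqrt (p : ℕ))) hB]
  rw [← h1]
  have hb2 : Bd fun x : HX ℚ => g (tq (cP W) (cQ W) x) := by
    obtain ⟨B1, hB1⟩ := (isCompact_Icc (a := (-2 : ℝ)) (b := 2)).exists_bound_of_continuousOn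
      hg.continuousOn
    exact ⟨B1, fun x => hB1 _ (abs_le.1 (abs_tq _ _ x))⟩
  refine M_congr_fin (sysHS ℚ) hU hb2 hb ?_
  refine (fin_prime _ (fin_dvd (m := 6 * W.Δ) (mul_ne_zero (by norm_num) hΔ))).subset ?_
  intro x hx
  by_contra hcon
  apply hx
  have hcon' : ¬ ((x.1 : ℕ) : ℤ) ∣ 6 * W.Δ := hcon
  rw [tq_eq W x hcon']

/-- the square of the polynomial with the zeros `-R, …, R` -/
noncomputable def pz (R : ℕ) (y : ℝ) : ℝ := ∏ j ∈ Finset.Icc (-(R : ℤ)) R, (y - j) ^ 2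

theorem pz_nonneg (R : ℕ) (y : ℝ) : 0 ≤ pz R y := Finset.prod_nonneg fun _ _ => sq_nonneg _

theorem pz_cont (R : ℕ) : Continuous (pz R) := by
  unfold pz
  fun_prop

theorem pz_le (R : ℕ) : ∃ C : ℝ, 0 ≤ C ∧ ∀ (y : ℝ) (j : ℤ), |y| ≤ 2 → |j| ≤ R →
    pz R y ≤ C * (y - j) ^ 2 := by
  refine ⟨((2 + (R : ℝ)) ^ 2) ^ (Finset.Icc (-(R : ℤ)) R).card, by positivity, fun y j hy hj => ?_⟩
  have hmem : j ∈ Finset.Icc (-(R : ℤ)) R := by
    rw [Finset.mem_Icc]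
    exact abs_le.1 hj
  unfold pz
  rw [← Finset.mul_prod_erase _ _ hmem, mul_comm]
  refine mul_le_mul_of_nonneg_right ?_ (sq_nonneg _)
  have h1 : ∏ i ∈ (Finset.Icc (-(R : ℤ)) R).erase j, (y - i) ^ 2 ≤
      ∏ _i ∈ (Finset.Icc (-(R : ℤ)) R).erase j, (2 + (R : ℝ)) ^ 2 := by
    refine Finset.prod_le_prod (fun _ _ => sq_nonneg _) fun i hi => ?_
    have hi' := Finset.mem_Icc.1 (Finset.mem_of_mem_erase hi)
    have hi1 : (-(R : ℝ)) ≤ i := by exact_mod_cast hi'.1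
    have hi2 : (i : ℝ) ≤ R := by exact_mod_cast hi'.2
    have hy' := abs_le.1 hy
    rw [sq_le_sq, abs_of_nonneg (by positivity : (0 : ℝ) ≤ 2 + R), abs_le]
    constructor <;> linarith [hy'.1, hy'.2]
  refine h1.trans ?_
  rw [Finset.prod_const]
  refine pow_le_pow_right₀ ?_ (Finset.card_erase_le)
  have : (0 : ℝ) ≤ R := Nat.cast_nonneg R
  nlinarith

theorem pz_int_pos (R : ℕ) :
    0 < 2 / Real.pi * ∫ θ in (0 : ℝ)..Real.pi, pz R (2 * Real.cos θ) * Real.sin θ ^ 2 := by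
  refine mul_pos (div_pos two_pos Real.pi_pos) ?_
  refine intervalIntegral.integral_pos Real.pi_pos ?_ (fun x _ => ?_) ⟨Real.arccos (1 / 4), ?_, ?_⟩
  · refine Continuous.continuousOn ?_
    exact ((pz_cont R).comp (by fun_prop)).mul (by fun_prop)
  · exact mul_nonneg (pz_nonneg _ _) (sq_nonneg _)
  · exact ⟨Real.arccos_nonneg _, Real.arccos_le_pi _⟩
  · rw [Real.cos_arccos (by norm_num) (by norm_num), Real.sin_arccos]
    refine mul_pos ?_ ?_
    · unfold pz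
      refine Finset.prod_pos fun j _ => ?_
      have h1 : (2 * (1 / 4 : ℝ)) - j ≠ 0 := by
        intro h
        have h2 : (2 * j : ℝ) = 1 := by linarith
        have h3 : (2 * j : ℤ) = 1 := by exact_mod_cast h2
        omega
      positivity
    · have : (0 : ℝ) < 1 - (1 / 4) ^ 2 := by norm_num
      positivity

/-! ### Virtual characters -/

section
variable {κ : Type*} {S : Finset κ} {F : κ → Type} [∀ k, Field (F k)] [∀ k, NumberField (F k)]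

/-- the value of the virtual character -/
noncomputable def uS (S : Finset κ) (d : ∀ k, 𝓞 (F k)) (c : κ → ℤ) (τ : ℝ) (x : HX ℚ) : ℝ :=
  ∑ k ∈ S, (c k : ℝ) * uq ℚ (d k) τ x

theorem bd_uS (S : Finset κ) (d : ∀ k, 𝓞 (F k)) (c : κ → ℤ) (τ : ℝ) : Bd (uS S d c τ) :=
  Bd.sum S fun k _ => (bd_uq (d k) τ).const_mul _

theorem M_tuS (d : ∀ k, 𝓞 (F k)) (c : κ → ℤ) (τ : ℝ) {t : HX ℚ → ℝ} (ht : Bd t)
    {U : Ultrafilter ℝ} (hU : (U : Filter ℝ) ≤ 𝓝[>] 0) :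
    (M (NH ℚ) U fun x => t x * uS S d c τ x) =
      ∑ k ∈ S, (c k : ℝ) * M (NH ℚ) U fun x => t x * uq ℚ (d k) τ x := by
  have e : (fun x => t x * uS S d c τ x) =
      fun x => ∑ k ∈ S, (c k : ℝ) * (t x * uq ℚ (d k) τ x) := by
    funext x
    unfold uS
    rw [Finset.mul_sum]
    exact Finset.sum_congr rfl fun k _ => by ring
  rw [e, M_sum (sysHS ℚ) hU S fun k _ => (ht.mul (bd_uq (d k) τ)).const_mul _]
  exact Finset.sum_congr rfl fun k _ => M_const_mul (sysHS ℚ) hU (ht.mul (bd_uq (d k) τ)) _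

theorem M_uS_sq (d : ∀ k, 𝓞 (F k)) (hd : ∀ k ∈ S, d k ≠ 0) (c : κ → ℤ) (τ : ℝ)
    {U : Ultrafilter ℝ} (hU : (U : Filter ℝ) ≤ 𝓝[>] 0) :
    (M (NH ℚ) U fun x => uS S d c τ x ^ 2) =
      ∑ k ∈ S, ∑ l ∈ S, ((c k : ℝ) * c l) * gq ℚ (d k) τ (d l) τ := by
  have e : (fun x => uS S d c τ x ^ 2) = fun x => ∑ k ∈ S, ∑ l ∈ S, ((c k : ℝ) * c l) *
      (uq ℚ (d k) τ x * uq ℚ (d l) τ x) := by
    funext x
    unfold uS
    rw [sq, Finset.sum_mul_sum]
    exact Finset.sum_congr rfl fun k _ => Finset.sum_congr rfl fun l _ => by ring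
  rw [e, M_sum (sysHS ℚ) hU S fun k _ => Bd.sum S fun l _ =>
    ((bd_uq (d k) τ).mul (bd_uq (d l) τ)).const_mul _]
  refine Finset.sum_congr rfl fun k hk => ?_
  rw [M_sum (sysHS ℚ) hU S fun l _ => ((bd_uq (d k) τ).mul (bd_uq (d l) τ)).const_mul _]
  refine Finset.sum_congr rfl fun l hl => ?_
  rw [M_const_mul (sysHS ℚ) hU ((bd_uq (d k) τ).mul (bd_uq (d l) τ)),
    M_of_tendsto hU (gramR (hd k hk) (hd l hl) τ τ)]

theorem gq_self_zero {K F F' : Type} [Field K] [NumberField K] [Field F] [NumberField F]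
    [Field F'] [NumberField F'] [Algebra K F] [Algebra K F']
    (D : 𝓞 F) (D' : 𝓞 F') : gq K D 0 D' 0 = inum K F F' (D : F) (D' : F') := by
  unfold gq
  rw [if_pos rfl, if_pos (by simp)]
  ring

/-- the values at height zero are integers of bounded absolute value -/
theorem uS_int (S : Finset κ) (d : ∀ k, 𝓞 (F k)) (c : κ → ℤ) :
    ∃ R : ℕ, ∀ x, ∃ j : ℤ, |j| ≤ R ∧ uS S d c 0 x = j := by
  classical
  have h1 : ∀ k (x : HX ℚ), ∃ j : ℤ, |j| ≤ (Module.finrank ℚ (F k) : ℤ) ∧ uq ℚ (d k) 0 x = j := by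
    intro k x
    rw [uq_zero]
    unfold push
    refine ⟨∑ ψ ∈ Finset.univ.filter (fun ψ : 𝓞 (F k) →+* ZMod (x.1 : ℕ) => res ℚ ψ = x.2),
      (haveI : Fact (x.1 : ℕ).Prime := ⟨x.1.2⟩; quadraticChar (ZMod (x.1 : ℕ)) (ψ (d k))), ?_, ?_⟩
    · have h2 := push_abs_le (K := ℚ) (qh_abs (d k)) x
      unfold push at h2
      rw [mul_one] at h2
      have h3 : (|((∑ ψ ∈ Finset.univ.filter
          (fun ψ : 𝓞 (F k) →+* ZMod (x.1 : ℕ) => res ℚ ψ = x.2),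
          (haveI : Fact (x.1 : ℕ).Prime := ⟨x.1.2⟩; quadraticChar (ZMod (x.1 : ℕ)) (ψ (d k))) : ℤ) : ℝ)|) ≤
          Module.finrank ℚ (F k) := by
        rw [Int.cast_sum]
        exact h2
      exact_mod_cast h3
    · rw [Int.cast_sum]
      rfl
  choose j hj1 hj2 using h1
  refine ⟨∑ k ∈ S, (c k).natAbs * Module.finrank ℚ (F k), fun x => ⟨∑ k ∈ S, c k * j k x, ?_, ?_⟩⟩
  · refine (Finset.abs_sum_le_sum_abs _ _).trans ?_
    push_cast
    refine Finset.sum_le_sum fun k _ => ?_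
    rw [abs_mul]
    exact mul_le_mul_of_nonneg_left (hj1 k x) (abs_nonneg _)
  · unfold uS
    push_cast
    exact Finset.sum_congr rfl fun k _ => by rw [hj2]

theorem uq_one_nonneg {K M' : Type} [Field K] [NumberField K] [Field M'] [NumberField M']
    [Algebra K M'] (x : HX K) : 0 ≤ uq K (1 : 𝓞 M') 0 x := by
  rw [uq_zero, Pool.Agent.W353.NF.push_one]
  positivity

theorem uq_one_rat (x : HX ℚ) : uq ℚ (1 : 𝓞 ℚ) 0 x = 1 := by
  rw [uq_zero, Pool.Agent.W353.NF.push_one]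
  have h1 : Fintype.card (𝓞 ℚ →+* ZMod (x.1 : ℕ)) = 1 := hom_unique x.1
  have h2 : Subsingleton (𝓞 ℚ →+* ZMod (x.1 : ℕ)) := Fintype.card_le_one_iff_subsingleton.1 h1.le
  have h3 : Nat.card {ψ : 𝓞 ℚ →+* ZMod (x.1 : ℕ) // ψ.comp (algebraMap (𝓞 ℚ) (𝓞 ℚ)) = x.2} = 1 :=
    Nat.card_eq_one_iff_unique.2 ⟨⟨fun a b => Subtype.ext (Subsingleton.elim _ _)⟩,
      ⟨⟨x.2, Subsingleton.elim _ _⟩⟩⟩
  exact (congrArg (Nat.cast : ℕ → ℝ) h3).trans Nat.cast_one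

/-- **The extreme case is impossible** if the degree is at least three or if the law of Sato and Tate
holds. -/
theorem no_extreme (W : WeierstrassCurve ℤ) (hΔ : W.Δ ≠ 0) (d : ∀ k, 𝓞 (F k))
    (hd : ∀ k ∈ S, d k ≠ 0) (c : κ → ℤ)
    (hN : ∑ k ∈ S, ∑ l ∈ S, (c k * c l) * (inum ℚ (F k) (F l) (d k : F k) (d l : F l) : ℤ) = 1)
    {U : Ultrafilter ℝ} (hU : (U : Filter ℝ) ≤ 𝓝[>] 0)
    (ht2 : M (NH ℚ) U (fun x => tq (cP W) (cQ W) x ^ 2) ≤ 1) {m : ℝ} (hm2 : m ^ 2 = 1)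
    (hm : (M (NH ℚ) U fun x => tq (cP W) (cQ W) x * uS S d c 0 x) = m)
    (h : 3 ≤ |∑ k ∈ S, c k * (Module.finrank ℚ (F k) : ℤ)| ∨ SatoTate W) : False := by
  classical
  have hbt := bd_tq (cP W) (cQ W)
  have hbu := bd_uS S d c 0
  have hu2 : M (NH ℚ) U (fun x => uS S d c 0 x ^ 2) = 1 := by
    rw [M_uS_sq d hd c 0 hU]
    have h1 : ∑ k ∈ S, ∑ l ∈ S, ((c k : ℝ) * c l) * gq ℚ (d k) 0 (d l) 0 =
        ((∑ k ∈ S, ∑ l ∈ S, (c k * c l) *
          (inum ℚ (F k) (F l) (d k : F k) (d l : F l) : ℤ) : ℤ) : ℝ) := by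
      push_cast
      refine Finset.sum_congr rfl fun k _ => Finset.sum_congr rfl fun l _ => ?_
      rw [gq_self_zero]
    rw [h1, hN, Int.cast_one]
  obtain ⟨hz, hψ⟩ := extreme (sysHS ℚ) hU hbt ht2 hbu hu2 hm2 hm
  rcases h with h | h
  · obtain ⟨M', _, _, _, hM1, hM2⟩ := exists_split (K := ℚ) S F fun k => (d k : F k)
    have hone : ((1 : 𝓞 M') : M') = 1 := map_one (algebraMap (𝓞 M') M')
    have hone' : ((1 : 𝓞 ℚ) : ℚ) = 1 := map_one (algebraMap (𝓞 ℚ) ℚ)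
    have h1 := hψ (uq ℚ (1 : 𝓞 M') 0) (bd_uq _ _)
    have h2 : (M (NH ℚ) U fun x => uS S d c 0 x * uq ℚ (1 : 𝓞 M') 0 x) =
        ∑ k ∈ S, (c k : ℝ) * (Module.finrank ℚ (F k) : ℝ) := by
      have e : (fun x => uS S d c 0 x * uq ℚ (1 : 𝓞 M') 0 x) =
          fun x => uq ℚ (1 : 𝓞 M') 0 x * uS S d c 0 x := funext fun x => mul_comm _ _
      rw [e, M_tuS d c 0 (bd_uq (1 : 𝓞 M') 0) hU]
      refine Finset.sum_congr rfl fun k hk => ?_
      rw [M_of_tendsto hU (gramR (one_ne_zero : (1 : 𝓞 M') ≠ 0) (hd k hk) 0 0), gq_self_zero, hone,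
        hM1 k hk]
    have h3 : (M (NH ℚ) U fun x => uq ℚ (1 : 𝓞 M') 0 x) = 1 := by
      have e : (fun x => uq ℚ (1 : 𝓞 M') 0 x) =
          fun x => uq ℚ (1 : 𝓞 M') 0 x * uq ℚ (1 : 𝓞 ℚ) 0 x := by
        funext x
        rw [uq_one_rat, mul_one]
      rw [e, M_of_tendsto hU (gramR (one_ne_zero : (1 : 𝓞 M') ≠ 0)
        (one_ne_zero : (1 : 𝓞 ℚ) ≠ 0) 0 0), gq_self_zero, hone, hone', hM2, Nat.cast_one]
    have h4 : |M (NH ℚ) U fun x => tq (cP W) (cQ W) x * uq ℚ (1 : 𝓞 M') 0 x| ≤ 2 := by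
      have h5 : ∀ x, |tq (cP W) (cQ W) x * uq ℚ (1 : 𝓞 M') 0 x| ≤ 2 * uq ℚ (1 : 𝓞 M') 0 x := by
        intro x
        rw [abs_mul, abs_of_nonneg (uq_one_nonneg x)]
        exact mul_le_mul_of_nonneg_right (abs_tq _ _ x) (uq_one_nonneg x)
      have hb1 := hbt.mul (bd_uq (1 : 𝓞 M') 0)
      have hb2 := (bd_uq (1 : 𝓞 M') (0 : ℝ) : Bd (uq ℚ (1 : 𝓞 M') 0)).const_mul 2
      have h6 := M_mono (sysHS ℚ) hU hb1 hb2 fun x => (le_abs_self _).trans (h5 x)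
      have h7 := M_mono (sysHS ℚ) hU hb2.neg hb1 fun x => by
        have := neg_abs_le (tq (cP W) (cQ W) x * uq ℚ (1 : 𝓞 M') 0 x)
        have := h5 x
        linarith
      rw [M_const_mul (sysHS ℚ) hU (bd_uq (1 : 𝓞 M') 0), h3] at h6
      rw [M_neg (sysHS ℚ) hU hb2, M_const_mul (sysHS ℚ) hU (bd_uq (1 : 𝓞 M') 0), h3] at h7
      rw [abs_le]
      constructor <;> linarith
    rw [h1, h2, abs_mul] at h4
    have h8 : |m| = 1 := by
      have : |m| ^ 2 = 1 := by rw [sq_abs]; exact hm2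
      have h9 := abs_nonneg m
      nlinarith
    rw [h8, one_mul] at h4
    have h10 : (|∑ k ∈ S, c k * (Module.finrank ℚ (F k) : ℤ)| : ℤ) ≤ 2 := by
      have : ((|∑ k ∈ S, c k * (Module.finrank ℚ (F k) : ℤ)| : ℤ) : ℝ) ≤ 2 := by
        push_cast
        exact h4
      exact_mod_cast this
    omega
  · obtain ⟨R, hR⟩ := uS_int S d c
    obtain ⟨C, hC0, hC⟩ := pz_le R
    have h1 := ST_mean W hΔ (pz_cont R) (h (pz R) (pz_cont R)) hU
    have h2 := pz_int_pos R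
    have hmi : ∃ j : ℤ, m = j ∧ |j| = 1 := by
      have : (m - 1) * (m + 1) = 0 := by ring_nf; rw [hm2]; ring
      rcases mul_eq_zero.1 this with h3 | h3
      · exact ⟨1, by push_cast; linarith, by norm_num⟩
      · exact ⟨-1, by push_cast; linarith, by norm_num⟩
    obtain ⟨j, hj1, hj2⟩ := hmi
    have hb : Bd fun x => pz R (tq (cP W) (cQ W) x) := by
      obtain ⟨B1, hB1⟩ := (isCompact_Icc (a := (-2 : ℝ)) (b := 2)).exists_bound_of_continuousOn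
        (pz_cont R).continuousOn
      exact ⟨B1, fun x => hB1 _ (abs_le.1 (abs_tq _ _ x))⟩
    have hb2 : Bd fun x => (tq (cP W) (cQ W) x - m * uS S d c 0 x) ^ 2 :=
      (hbt.sub (hbu.const_mul m)).sq
    have h3 := M_mono (sysHS ℚ) hU hb (hb2.const_mul C) fun x => by
      obtain ⟨i, hi1, hi2⟩ := hR x
      have h4 := hC (tq (cP W) (cQ W) x) (j * i) (abs_tq _ _ x) (by rw [abs_mul, hj2, one_mul]; exact hi1)
      rw [hi2, hj1]
      push_cast at h4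
      exact h4
    rw [M_const_mul (sysHS ℚ) hU hb2, hz, mul_zero, h1] at h3
    linarith

end

end Pool.Agent.TH553.RS
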