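import Pool.Agent.TH553.RS.Artin
import Pool.Agent.TH553.RS.Ext
import Mathlib.NumberTheory.Padics.HeightOneSpectrum

set_option autoImplicit false

/-!
# Means over the primes of `ℚ` and class functions
-/

namespace Pool.Agent.TH553.RS

open Complex Filter Topology ComplexConjugate Pool.Agent.H341R2 NumberField IsDedekindDomain
  Pool.Agent.W401.Cheb Polynomial Pool.Agent.W540.BE CongruenceSubgroup
open Pool.Agent.TH941 (gg cr Hecke gg_nonneg)
open Pool.Agent.W165.RS (ac)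
open scoped MatrixGroups

/-! ### The primes of `ℚ` -/

theorem nm_rat (v : HeightOneSpectrum (𝓞 ℚ)) :
    nm ℚ v = (Rat.HeightOneSpectrum.primesEquiv v : ℕ) := by
  have h1 := Rat.HeightOneSpectrum.span_natGenerator v
  have h2 : (Rat.HeightOneSpectrum.primesEquiv v : ℕ) = Rat.HeightOneSpectrum.natGenerator v := rfl
  rw [h2]
  unfold nm
  have e1 := Ideal.quotientEquiv v.asIdeal
    (Ideal.span {(Rat.HeightOneSpectrum.natGenerator v : ℤ)}) (Rat.IsIntegralClosure.intEquiv (𝓞 ℚ)) h1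
  have e2 := Int.quotientSpanNatEquivZMod (Rat.HeightOneSpectrum.natGenerator v)
  rw [Ideal.absNorm_apply, Submodule.cardQuot_apply, Nat.card_congr e1.toEquiv,
    Nat.card_congr e2.toEquiv, Nat.card_zmod]

theorem nm_prime (v : HeightOneSpectrum (𝓞 ℚ)) : (nm ℚ v).Prime := by
  rw [nm_rat]
  exact (Rat.HeightOneSpectrum.primesEquiv v).2

theorem EP_rat {ε : ℝ} (h : Nat.Primes → ℝ) :
    EP (nm ℚ) ε (fun v => h (Rat.HeightOneSpectrum.primesEquiv v)) = E ε h := by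
  unfold EP E
  rw [← (Rat.HeightOneSpectrum.primesEquiv (R := 𝓞 ℚ)).tsum_eq
    (fun p : Nat.Primes => h p * ((p : ℕ) : ℝ) ^ (-(1 + ε)))]
  exact tsum_congr fun v => by rw [nm_rat]

theorem fin_rat (S : Set Nat.Primes) (hS : S.Finite) :
    {v : HeightOneSpectrum (𝓞 ℚ) | Rat.HeightOneSpectrum.primesEquiv v ∈ S}.Finite :=
  hS.preimage (Rat.HeightOneSpectrum.primesEquiv (R := 𝓞 ℚ)).injective.injOn

/-! ### The traces of Frobenius -/

/-- the normalised trace of Frobenius, for almost all primes -/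
noncomputable def tv (W : WeierstrassCurve ℤ) (v : HeightOneSpectrum (𝓞 ℚ)) : ℝ :=
  if |(tr W (nm ℚ v) : ℝ) / Real.sqrt (nm ℚ v : ℕ)| ≤ 2 then
    (tr W (nm ℚ v) : ℝ) / Real.sqrt (nm ℚ v : ℕ) else 0

theorem abs_tv (W : WeierstrassCurve ℤ) (v : HeightOneSpectrum (𝓞 ℚ)) : |tv W v| ≤ 2 := by
  unfold tv
  split_ifs with h
  · exact h
  · simp

theorem bd_tv (W : WeierstrassCurve ℤ) : Bd (tv W) := ⟨2, abs_tv W⟩

theorem fin_bad {W : WeierstrassCurve ℤ} (hΔ : W.Δ ≠ 0) :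
    {v : HeightOneSpectrum (𝓞 ℚ) | ((nm ℚ v : ℕ) : ℤ) ∣ 6 * W.Δ}.Finite := by
  have h1 := fin_rat _ (fin_dvd (m := 6 * W.Δ) (mul_ne_zero (by norm_num) hΔ))
  refine h1.subset fun v hv => ?_
  rw [Set.mem_ofPred_eq] at hv ⊢
  rw [nm_rat] at hv
  exact hv

theorem tr_bd' {W : WeierstrassCurve ℤ} {v : HeightOneSpectrum (𝓞 ℚ)}
    (h : ¬ ((nm ℚ v : ℕ) : ℤ) ∣ 6 * W.Δ) :
    |(tr W (nm ℚ v) : ℝ) / Real.sqrt (nm ℚ v : ℕ)| ≤ 2 := by
  rw [nm_rat] at h ⊢
  exact tr_bd W _ h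

theorem tv_eq {W : WeierstrassCurve ℤ} {v : HeightOneSpectrum (𝓞 ℚ)}
    (h : ¬ ((nm ℚ v : ℕ) : ℤ) ∣ 6 * W.Δ) :
    tv W v = (tr W (nm ℚ v) : ℝ) / Real.sqrt (nm ℚ v : ℕ) := by
  unfold tv
  rw [if_pos (tr_bd' h)]

/-- mean values of functions of the prime number -/
theorem M_primes {h : Nat.Primes → ℝ} {c : ℝ}
    (hc : Tendsto (fun ε => E ε h / lam ε) (𝓝[>] 0) (𝓝 c)) {U : Ultrafilter ℝ}
    (hU : (U : Filter ℝ) ≤ 𝓝[>] 0) :
    M (nm ℚ) U (fun v => h (Rat.HeightOneSpectrum.primesEquiv v)) = c := by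
  refine M_of_tendsto hU (hc.congr fun ε => ?_)
  unfold qt
  rw [EP_rat]

section
variable {N : ℕ} [NeZero N] {f : CuspForm (Gamma0 N : Subgroup (GL (Fin 2) ℝ)) 2}

/-- **The mean value of `a_p² / p` is one.** -/
theorem M_tv (W : WeierstrassCurve ℤ) (hΔ : W.Δ ≠ 0) (hf : Hecke f)
    (hp : ∀ p : ℕ, p.Prime → ¬ (p : ℤ) ∣ W.Δ → ac f p = (tr W p : ℂ))
    {U : Ultrafilter ℝ} (hU : (U : Filter ℝ) ≤ 𝓝[>] 0) :
    M (nm ℚ) U (fun v => tv W v ^ 2) = 1 := by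
  have h1 := M_primes (E_gg hf) hU
  rw [← h1]
  refine M_congr_fin (sysF ℚ) hU (bd_tv W).sq ⟨4, fun v => gg_le hf _⟩ ?_
  refine (fin_bad hΔ).subset ?_
  intro v hv
  by_contra hcon
  apply hv
  have hcon' : ¬ ((nm ℚ v : ℕ) : ℤ) ∣ 6 * W.Δ := hcon
  have hpos : (0 : ℝ) < (nm ℚ v : ℕ) := by exact_mod_cast (nm_prime v).pos
  rw [tv_eq hcon', ← nm_rat]
  unfold Pool.Agent.TH941.gg
  rw [hp _ (nm_prime v) (fun h => hcon' (h.mul_left _)), Complex.norm_intCast, sq_abs, div_pow,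
    Real.sq_sqrt hpos.le]

end

theorem bd_comp (W : WeierstrassCurve ℤ) {g : ℝ → ℝ} (hg : Continuous g) :
    Bd fun v => g (tv W v) := by
  obtain ⟨B1, hB1⟩ := (isCompact_Icc (a := (-2 : ℝ)) (b := 2)).exists_bound_of_continuousOn
    hg.continuousOn
  exact ⟨B1, fun x => hB1 _ (abs_le.1 (abs_tv W x))⟩

/-- means of continuous functions of the normalised traces -/
theorem law_mean (W : WeierstrassCurve ℤ) (hΔ : W.Δ ≠ 0) {g : ℝ → ℝ} (hg : Continuous g) {c : ℝ}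
    (h : Tendsto (fun n : ℕ => (∑ p ∈ (Finset.range (n + 1)).filter Nat.Prime,
      g (tr W p / Real.sqrt p)) / (Nat.primeCounting n : ℝ)) atTop (𝓝 c))
    {U : Ultrafilter ℝ} (hU : (U : Filter ℝ) ≤ 𝓝[>] 0) :
    M (nm ℚ) U (fun v => g (tv W v)) = c := by
  obtain ⟨B, hB⟩ := g_bdd W hΔ hg
  have hE := E_of_mean (k := fun n => g (tr W n / Real.sqrt n)) hB h
  have h1 := M_primes hE hU
  rw [← h1]
  refine M_congr_fin (sysF ℚ) hU (bd_comp W hg) ⟨B, fun v => hB _⟩ ?_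
  refine (fin_bad hΔ).subset ?_
  intro v hv
  by_contra hcon
  apply hv
  have hcon' : ¬ ((nm ℚ v : ℕ) : ℤ) ∣ 6 * W.Δ := hcon
  rw [tv_eq hcon', ← nm_rat]

/-- the distribution of the traces for a curve with complex multiplication: half of the mass is at
zero, and the other half is distributed like the trace of a random rotation -/
def CMLaw (W : WeierstrassCurve ℤ) : Prop :=
  ∀ g : ℝ → ℝ, Continuous g → Tendsto (fun n : ℕ =>
    (∑ p ∈ (Finset.range (n + 1)).filter Nat.Prime, g (tr W p / Real.sqrt p)) /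
      (Nat.primeCounting n : ℝ)) atTop
    (𝓝 (1 / 2 * g 0 + 1 / (2 * Real.pi) * ∫ θ in (0 : ℝ)..Real.pi, g (2 * Real.cos θ)))

/-- the square of the polynomial with the zeros in `S` -/
noncomputable def ps (S : Finset ℝ) (y : ℝ) : ℝ := ∏ c ∈ S, (y - c) ^ 2

theorem ps_nonneg (S : Finset ℝ) (y : ℝ) : 0 ≤ ps S y := Finset.prod_nonneg fun _ _ => sq_nonneg _

theorem ps_cont (S : Finset ℝ) : Continuous (ps S) := by
  unfold ps
  fun_prop

theorem ps_le (S : Finset ℝ) : ∃ C : ℝ, 0 ≤ C ∧ ∀ y c : ℝ, |y| ≤ 2 → c ∈ S →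
    ps S y ≤ C * (y - c) ^ 2 := by
  classical
  set R : ℝ := 2 + ∑ c ∈ S, |c| with hR
  have hR0 : 0 ≤ ∑ c ∈ S, |c| := Finset.sum_nonneg fun _ _ => abs_nonneg _
  refine ⟨(R ^ 2) ^ S.card, by positivity, fun y c hy hc => ?_⟩
  unfold ps
  rw [← Finset.mul_prod_erase _ _ hc, mul_comm]
  refine mul_le_mul_of_nonneg_right ?_ (sq_nonneg _)
  have h1 : ∏ i ∈ S.erase c, (y - i) ^ 2 ≤ ∏ _i ∈ S.erase c, R ^ 2 := by
    refine Finset.prod_le_prod (fun _ _ => sq_nonneg _) fun i hi => ?_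
    have hi1 : |i| ≤ ∑ c ∈ S, |c| :=
      Finset.single_le_sum (f := fun c : ℝ => |c|) (fun _ _ => abs_nonneg _)
        (Finset.mem_of_mem_erase hi)
    rw [sq_le_sq, abs_of_nonneg (by linarith : 0 ≤ R)]
    refine (abs_sub _ _).trans ?_
    linarith
  refine h1.trans ?_
  rw [Finset.prod_const]
  exact pow_le_pow_right₀ (by nlinarith) Finset.card_erase_le

/-- a point outside a finite set -/
theorem exists_angle (S : Finset ℝ) : ∃ θ : ℝ, 0 < θ ∧ θ < Real.pi ∧ 2 * Real.cos θ ∉ S := by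
  have h1 : (Set.Ioo (0 : ℝ) 1).Infinite := Set.Ioo_infinite one_pos
  obtain ⟨y, hy, hyS⟩ := (h1.image (f := fun y : ℝ => 2 * y)
    (fun a _ b _ h => by
      have h' : 2 * a = 2 * b := h
      linarith)).exists_notMem_finset S
  obtain ⟨z, hz, rfl⟩ := hy
  refine ⟨Real.arccos z, ?_, ?_, ?_⟩
  · exact Real.arccos_pos.2 hz.2
  · rw [Real.arccos_lt_pi]
    linarith [hz.1]
  · rw [Real.cos_arccos (by linarith [hz.1]) hz.2.le]
    exact hyS

theorem ps_pos {S : Finset ℝ} {y : ℝ} (h : y ∉ S) : 0 < ps S y := by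
  refine Finset.prod_pos fun c hc => ?_
  have : y - c ≠ 0 := fun h' => h (by rw [sub_eq_zero.1 h']; exact hc)
  positivity

/-- the square of a polynomial has positive mean value -/
theorem M_ps (W : WeierstrassCurve ℤ) (hΔ : W.Δ ≠ 0) (h : SatoTate W ∨ CMLaw W) (S : Finset ℝ)
    {U : Ultrafilter ℝ} (hU : (U : Filter ℝ) ≤ 𝓝[>] 0) :
    0 < M (nm ℚ) U (fun v => ps S (tv W v)) := by
  obtain ⟨θ, h1, h2, h3⟩ := exists_angle S
  rcases h with h | h
  · rw [law_mean W hΔ (ps_cont S) (h (ps S) (ps_cont S)) hU]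
    refine mul_pos (div_pos two_pos Real.pi_pos) ?_
    refine intervalIntegral.integral_pos Real.pi_pos ?_ (fun x _ => ?_) ⟨θ, ⟨h1.le, h2.le⟩, ?_⟩
    · refine Continuous.continuousOn ?_
      exact ((ps_cont S).comp (by fun_prop)).mul (by fun_prop)
    · exact mul_nonneg (ps_nonneg _ _) (sq_nonneg _)
    · refine mul_pos (ps_pos h3) ?_
      have := Real.sin_pos_of_pos_of_lt_pi h1 h2
      positivity
  · rw [law_mean W hΔ (ps_cont S) (h (ps S) (ps_cont S)) hU]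
    refine add_pos_of_nonneg_of_pos (mul_nonneg (by norm_num) (ps_nonneg _ _)) ?_
    refine mul_pos (div_pos one_pos (mul_pos two_pos Real.pi_pos)) ?_
    refine intervalIntegral.integral_pos Real.pi_pos ?_ (fun x _ => ?_) ⟨θ, ⟨h1.le, h2.le⟩, ?_⟩
    · refine Continuous.continuousOn ?_
      exact (ps_cont S).comp (by fun_prop)
    · exact ps_nonneg _ _
    · exact ps_pos h3

end Pool.Agent.TH553.RS
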