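import Pool.Agent.TH553.RS.ArtinFin
import Pool.Agent.TH553.RS.ArtinQ

set_option autoImplicit false

/-!
# Elliptic curves over `ℚ` and Artin representations
-/

namespace Pool.Agent.TH553.RS

open Complex Filter Topology ComplexConjugate Pool.Agent.H341R2 NumberField IsDedekindDomain
  Pool.Agent.W401.Cheb Polynomial Pool.Agent.W540.BE CongruenceSubgroup
open Pool.Agent.TH941 (gg cr Hecke gg_nonneg)
open Pool.Agent.W165.RS (ac)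
open scoped MatrixGroups

/-- the Euler factors of `E ⊗ ρ` -/
def EF (W : WeierstrassCurve ℤ) {n : ℕ} (ρ : Representation ℂ (GK ℚ) (Fin n → ℂ))
    (B : HeightOneSpectrum (𝓞 ℚ) → ℂ[X]) : Prop :=
  ∀ᶠ v in cofinite, ∀ σ : GK ℚ, IsFrob v σ → ∀ z : ℂ,
    (B v).eval z = LinearMap.det (1 - ((tr W (nm ℚ v) : ℂ) * z) • ρ σ⁻¹ +
      (((nm ℚ v : ℕ) : ℂ) * z ^ 2) • (ρ σ⁻¹) ^ 2)

theorem exists_alpha {W : WeierstrassCurve ℤ} (hΔ : W.Δ ≠ 0) :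
    ∃ α : HeightOneSpectrum (𝓞 ℚ) → Fin 2 → ℂ,
      (∀ᶠ v in cofinite, ∀ j, ‖α v j‖ = (nm ℚ v : ℝ) ^ (1 / 2 : ℝ)) ∧
      (∀ᶠ v in cofinite, (∑ j, α v j) * ((nm ℚ v : ℕ) : ℂ) ^ (-((1 / 2 : ℝ) : ℂ)) = tv W v) ∧
      ∀ᶠ v in cofinite, α v 0 + α v 1 = (tr W (nm ℚ v) : ℂ) ∧ α v 0 * α v 1 = ((nm ℚ v : ℕ) : ℂ) := by
  have hgood : ∀ᶠ v : HeightOneSpectrum (𝓞 ℚ) in cofinite, ¬ ((nm ℚ v : ℕ) : ℤ) ∣ 6 * W.Δ := by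
    rw [Filter.eventually_cofinite]
    refine (fin_bad hΔ).subset fun v hv => ?_
    rw [Set.mem_ofPred_eq, not_not] at hv
    exact hv
  have hpos : ∀ v : HeightOneSpectrum (𝓞 ℚ), (0 : ℝ) < nm ℚ v := fun v => by
    exact_mod_cast (nm_prime v).pos
  have hex : ∀ v : HeightOneSpectrum (𝓞 ℚ), ∃ α : Fin 2 → ℂ,
      ¬ ((nm ℚ v : ℕ) : ℤ) ∣ 6 * W.Δ →
        (∀ j, ‖α j‖ = (nm ℚ v : ℝ) ^ (1 / 2 : ℝ)) ∧ α 0 + α 1 = ((tr W (nm ℚ v) : ℝ) : ℂ) ∧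
          α 0 * α 1 = ((nm ℚ v : ℝ) : ℂ) := by
    intro v
    by_cases h : ¬ ((nm ℚ v : ℕ) : ℤ) ∣ 6 * W.Δ
    · have h1 := tr_bd' h
      rw [abs_div, abs_of_pos (Real.sqrt_pos.2 (hpos v)), div_le_iff₀ (Real.sqrt_pos.2 (hpos v))]
        at h1
      obtain ⟨α, h2, h3, h4⟩ := exists_roots (hpos v) h1
      exact ⟨α, fun _ => ⟨h2, h3, h4⟩⟩
    · exact ⟨0, fun h' => absurd h' h⟩
  choose α hα using hex
  refine ⟨α, hgood.mono fun v hv => (hα v hv).1, hgood.mono fun v hv => ?_,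
    hgood.mono fun v hv => ⟨?_, ?_⟩⟩
  · rw [Fin.sum_univ_two, (hα v hv).2.1, tv_eq hv]
    have e1 : (((nm ℚ v : ℕ) : ℂ) ^ (-((1 / 2 : ℝ) : ℂ))) =
        (((Real.sqrt (nm ℚ v : ℕ))⁻¹ : ℝ) : ℂ) := by
      rw [Real.sqrt_eq_rpow, ← Real.rpow_neg (hpos v).le, Complex.ofReal_cpow (hpos v).le]
      push_cast
      rfl
    rw [e1, ← Complex.ofReal_mul]
    rfl
  · rw [(hα v hv).2.1]
    push_cast
    rfl
  · rw [(hα v hv).2.2]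
    push_cast
    rfl

/-- sizes and correlations -/
theorem size_W {W : WeierstrassCurve ℤ} (hΔ : W.Δ ≠ 0) {n : ℕ}
    {ρ : Representation ℂ (GK ℚ) (Fin n → ℂ)} (hρ : Open ρ) (τ : ℝ)
    {B : HeightOneSpectrum (𝓞 ℚ) → ℂ[X]} (hB : EF W ρ B)
    (hB0 : ∀ v, (B v).eval (((nm ℚ v : ℕ) : ℂ) ^ (-(3 / 2 + τ * I : ℂ))) ≠ 0)
    (L : ℂ → ℂ)
    (hL : ∀ s : ℂ, L s = ∏' v, ((B v).eval (((nm ℚ v : ℕ) : ℂ) ^ (-s)))⁻¹)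
    {σ : HeightOneSpectrum (𝓞 ℚ) → GK ℚ} (hσ : ∀ v, IsFrob v (σ v)) :
    (∀ᶠ ε : ℝ in 𝓝[>] 0, L (3 / 2 + τ * I + ε) ≠ 0) ∧
    Tendsto (fun ε : ℝ => qt (nm ℚ) (fun v => tv W v * vr σ ρ τ v) ε -
      Real.log ‖L (3 / 2 + τ * I + ε)‖ / Real.log (1 / ε)) (𝓝[>] 0) (𝓝 0) := by
  obtain ⟨α, h1, h2, h3⟩ := exists_alpha hΔ
  have hs : (((1 / 2 : ℝ) : ℂ) + 1 + τ * I) = 3 / 2 + τ * I := by
    push_cast
    ring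
  have h4 := size_corr 2 (1 / 2) α h1 (bd_tv W) h2 hρ τ B (by
    filter_upwards [h3, hB] with v h4 h5
    intro σ hσ z
    rw [det_two, h4.1, h4.2]
    exact h5 σ hσ z) (by
    intro v
    rw [hs]
    exact hB0 v) L (fun s _ => hL s) σ hσ
  rw [hs] at h4
  exact h4

end Pool.Agent.TH553.RS
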