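import Pool.Agent.TH553.RS.Mean

set_option autoImplicit false

/-!
# The Gram inequality for a function whose square has mean value at most one
-/

namespace Pool.Agent.TH553.RS

open Complex Filter Topology Pool.Agent.H341R2 Pool.Agent.W540.BE

section

variable {P : Type*} {N : P → ℕ} {κ : Type*}

/-- Cauchy-Schwarz for a mean value -/
theorem gramM (hN : Sys N) {U : Ultrafilter ℝ} (hU : (U : Filter ℝ) ≤ 𝓝[>] 0) {t : P → ℝ}
    (ht : Bd t) (ht2 : M N U (fun p => t p ^ 2) ≤ 1) (K : Finset κ) {u : κ → P → ℝ}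
    (hu : ∀ k ∈ K, Bd (u k)) (c : κ → ℝ) :
    (∑ k ∈ K, c k * M N U fun p => t p * u k p) ^ 2 ≤
      ∑ k ∈ K, ∑ l ∈ K, (c k * c l) * M N U fun p => u k p * u l p := by
  have hs : Bd fun p => ∑ k ∈ K, c k * u k p := Bd.sum K fun k hk => (hu k hk).const_mul (c k)
  have h1 := M_cs hN hU ht hs
  have h2 : (M N U fun p => t p * ∑ k ∈ K, c k * u k p) =
      ∑ k ∈ K, c k * M N U fun p => t p * u k p := by
    have e : (fun p => t p * ∑ k ∈ K, c k * u k p) =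
        fun p => ∑ k ∈ K, c k * (t p * u k p) := by
      funext p
      rw [Finset.mul_sum]
      exact Finset.sum_congr rfl fun k _ => by ring
    rw [e, M_sum hN hU K fun k hk => (ht.mul (hu k hk)).const_mul (c k)]
    exact Finset.sum_congr rfl fun k hk => M_const_mul hN hU (ht.mul (hu k hk)) _
  have h3 : (M N U fun p => (∑ k ∈ K, c k * u k p) ^ 2) =
      ∑ k ∈ K, ∑ l ∈ K, (c k * c l) * M N U fun p => u k p * u l p := by
    have e : (fun p => (∑ k ∈ K, c k * u k p) ^ 2) =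
        fun p => ∑ k ∈ K, ∑ l ∈ K, (c k * c l) * (u k p * u l p) := by
      funext p
      rw [sq, Finset.sum_mul_sum]
      exact Finset.sum_congr rfl fun k _ => Finset.sum_congr rfl fun l _ => by ring
    rw [e, M_sum hN hU K fun k hk => Bd.sum K fun l hl => ((hu k hk).mul (hu l hl)).const_mul _]
    refine Finset.sum_congr rfl fun k hk => ?_
    rw [M_sum hN hU K fun l hl => ((hu k hk).mul (hu l hl)).const_mul _]
    exact Finset.sum_congr rfl fun l hl => M_const_mul hN hU ((hu k hk).mul (hu l hl)) _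
  rw [h2, h3] at h1
  refine h1.trans ?_
  have h4 : 0 ≤ ∑ k ∈ K, ∑ l ∈ K, (c k * c l) * M N U fun p => u k p * u l p := by
    rw [← h3]
    exact M_nonneg hN hU hs.sq fun p => sq_nonneg _
  exact mul_le_of_le_one_left h4 ht2

/-- the data: a bounded function `t` whose square has mean value at most one, bounded functions `u k`
with a Gram matrix `g`, and the quantities `x k` which are asymptotic to the correlations -/
structure Dat (N : P → ℕ) (K : Finset κ) (t : P → ℝ) (u : κ → P → ℝ) (g : κ → κ → ℝ)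
    (x : κ → ℝ → ℝ) : Prop where
  sys : Sys N
  bt : Bd t
  t2 : ∀ U : Ultrafilter ℝ, (U : Filter ℝ) ≤ 𝓝[>] 0 → M N U (fun p => t p ^ 2) ≤ 1
  bu : ∀ k ∈ K, Bd (u k)
  gr : ∀ k ∈ K, ∀ l ∈ K, Tendsto (qt N fun p => u k p * u l p) (𝓝[>] 0) (𝓝 (g k l))
  cx : ∀ k ∈ K, Tendsto (fun ε => qt N (fun p => t p * u k p) ε - x k ε) (𝓝[>] 0) (𝓝 0)

variable {K : Finset κ} {t : P → ℝ} {u : κ → P → ℝ} {g : κ → κ → ℝ} {x : κ → ℝ → ℝ}

theorem Dat.lim (D : Dat N K t u g x) {U : Ultrafilter ℝ} (hU : (U : Filter ℝ) ≤ 𝓝[>] 0) {k : κ}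
    (hk : k ∈ K) : Tendsto (x k) U (𝓝 (M N U fun p => t p * u k p)) := by
  have h1 := M_lim D.sys hU (D.bt.mul (D.bu k hk))
  have h2 := h1.sub ((D.cx k hk).mono_left hU)
  rw [sub_zero] at h2
  exact h2.congr fun ε => by ring

theorem Dat.gram (D : Dat N K t u g x) {U : Ultrafilter ℝ} (hU : (U : Filter ℝ) ≤ 𝓝[>] 0)
    (c : κ → ℝ) : (∑ k ∈ K, c k * M N U fun p => t p * u k p) ^ 2 ≤
      ∑ k ∈ K, ∑ l ∈ K, (c k * c l) * g k l := by
  refine (gramM D.sys hU D.bt (D.t2 U hU) K D.bu c).trans (le_of_eq ?_)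
  refine Finset.sum_congr rfl fun k hk => Finset.sum_congr rfl fun l hl => ?_
  rw [M_of_tendsto hU (D.gr k hk l hl)]

/-- **The Gram inequality**, uniformly for bounded coefficients. -/
theorem Dat.unif (D : Dat N K t u g x) (C : ℝ) {η : ℝ} (hη : 0 < η) :
    ∀ᶠ ε : ℝ in 𝓝[>] 0, ∀ c : κ → ℝ, (∀ k ∈ K, |c k| ≤ C) →
      (∑ k ∈ K, c k * x k ε) ^ 2 ≤ (∑ k ∈ K, ∑ l ∈ K, (c k * c l) * g k l) + η := by
  refine eventually_of_ultra fun U hU => ?_
  by_contra hcon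
  rw [← Ultrafilter.eventually_not] at hcon
  have h1 : ∀ ε : ℝ, ∃ c : κ → ℝ,
      (¬ ∀ c : κ → ℝ, (∀ k ∈ K, |c k| ≤ C) →
        (∑ k ∈ K, c k * x k ε) ^ 2 ≤ (∑ k ∈ K, ∑ l ∈ K, (c k * c l) * g k l) + η) →
      (∀ k ∈ K, |c k| ≤ C) ∧
        (∑ k ∈ K, ∑ l ∈ K, (c k * c l) * g k l) + η < (∑ k ∈ K, c k * x k ε) ^ 2 := by
    intro ε
    by_cases h : ∀ c : κ → ℝ, (∀ k ∈ K, |c k| ≤ C) →
        (∑ k ∈ K, c k * x k ε) ^ 2 ≤ (∑ k ∈ K, ∑ l ∈ K, (c k * c l) * g k l) + η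
    · exact ⟨0, fun h' => absurd h h'⟩
    · push Not at h
      obtain ⟨c, hc1, hc2⟩ := h
      exact ⟨c, fun _ => ⟨hc1, hc2⟩⟩
  choose c hc using h1
  have h2 : ∀ k, ∃ y, k ∈ K → Tendsto (fun ε => c ε k) U (𝓝 y) := by
    intro k
    by_cases hk : k ∈ K
    · obtain ⟨y, hy⟩ := exists_lim U (f := fun ε => c ε k) (C := C)
        (hcon.mono fun ε hε => (hc ε hε).1 k hk)
      exact ⟨y, fun _ => hy⟩
    · exact ⟨0, fun h => absurd h hk⟩
  choose y hy using h2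
  have h3 : Tendsto (fun ε => (∑ k ∈ K, ∑ l ∈ K, (c ε k * c ε l) * g k l) + η) U
      (𝓝 ((∑ k ∈ K, ∑ l ∈ K, (y k * y l) * g k l) + η)) :=
    (tendsto_finsetSum _ fun k hk => tendsto_finsetSum _ fun l hl =>
      ((hy k hk).mul (hy l hl)).mul_const _).add_const _
  have h4 : Tendsto (fun ε => (∑ k ∈ K, c ε k * x k ε) ^ 2) U
      (𝓝 ((∑ k ∈ K, y k * M N U fun p => t p * u k p) ^ 2)) :=
    (tendsto_finsetSum _ fun k hk => (hy k hk).mul (D.lim hU hk)).pow 2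
  have h5 := le_of_tendsto_of_tendsto h3 h4 (hcon.mono fun ε hε => (hc ε hε).2.le)
  have h6 := D.gram hU y
  linarith

/-- along an ultrafilter the correlations with an orthogonal system satisfy Bessel's inequality -/
theorem Dat.besselU (D : Dat N K t u g x) (hg : ∀ k ∈ K, ∀ l ∈ K, k ≠ l → g k l = 0)
    {U : Ultrafilter ℝ} (hU : (U : Filter ℝ) ≤ 𝓝[>] 0) :
    ∑ k ∈ K, (M N U fun p => t p * u k p) ^ 2 / g k k ≤ 1 := by
  classical
  have h1 := D.gram hU fun k => (M N U fun p => t p * u k p) / g k k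
  set S := ∑ k ∈ K, (M N U fun p => t p * u k p) ^ 2 / g k k with hS
  have e1 : ∑ k ∈ K, (M N U fun p => t p * u k p) / g k k * (M N U fun p => t p * u k p) = S :=
    Finset.sum_congr rfl fun k _ => by ring
  have e2 : ∑ k ∈ K, ∑ l ∈ K, ((M N U fun p => t p * u k p) / g k k *
      ((M N U fun p => t p * u l p) / g l l)) * g k l = S := by
    refine Finset.sum_congr rfl fun k hk => ?_
    rw [Finset.sum_eq_single_of_mem k hk (fun l hl hlk => by
      rw [hg k hk l hl (Ne.symm hlk), mul_zero])]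
    by_cases h : g k k = 0
    · rw [h]
      simp
    · field_simp
  rw [e1, e2] at h1
  by_contra hcon
  push Not at hcon
  nlinarith

/-- **Bessel's inequality.** -/
theorem Dat.bessel (D : Dat N K t u g x) (hg : ∀ k ∈ K, ∀ l ∈ K, k ≠ l → g k l = 0) {η : ℝ}
    (hη : 0 < η) : ∀ᶠ ε : ℝ in 𝓝[>] 0, ∑ k ∈ K, x k ε ^ 2 / g k k ≤ 1 + η := by
  refine eventually_of_ultra fun U hU => ?_
  have h1 : Tendsto (fun ε => ∑ k ∈ K, x k ε ^ 2 / g k k) U
      (𝓝 (∑ k ∈ K, (M N U fun p => t p * u k p) ^ 2 / g k k)) :=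
    tendsto_finsetSum _ fun k hk => ((D.lim hU hk).pow 2).div_const _
  have h2 := D.besselU hg hU
  exact (h1.eventually_lt_const (lt_of_le_of_lt h2 (by linarith))).mono fun ε hε => hε.le

/-- limits -/
theorem Dat.gram_lim (D : Dat N K t u g x) {m : κ → ℝ}
    (hm : ∀ k ∈ K, Tendsto (x k) (𝓝[>] 0) (𝓝 (-(m k)))) (c : κ → ℝ) :
    (∑ k ∈ K, c k * m k) ^ 2 ≤ ∑ k ∈ K, ∑ l ∈ K, (c k * c l) * g k l := by
  obtain ⟨U, hU⟩ := Ultrafilter.exists_le (𝓝[>] (0 : ℝ))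
  have h1 := D.gram hU c
  have h2 : ∀ k ∈ K, (M N U fun p => t p * u k p) = -(m k) := fun k hk =>
    tendsto_nhds_unique (D.lim hU hk) ((hm k hk).mono_left hU)
  have h3 : ∑ k ∈ K, c k * (M N U fun p => t p * u k p) = -∑ k ∈ K, c k * m k := by
    rw [← Finset.sum_neg_distrib]
    exact Finset.sum_congr rfl fun k hk => by rw [h2 k hk]; ring
  rw [h3, neg_sq] at h1
  exact h1

theorem Dat.bessel_lim (D : Dat N K t u g x) (hg : ∀ k ∈ K, ∀ l ∈ K, k ≠ l → g k l = 0)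
    {m : κ → ℝ} (hm : ∀ k ∈ K, Tendsto (x k) (𝓝[>] 0) (𝓝 (-(m k)))) :
    ∑ k ∈ K, m k ^ 2 / g k k ≤ 1 := by
  obtain ⟨U, hU⟩ := Ultrafilter.exists_le (𝓝[>] (0 : ℝ))
  have h1 := D.besselU hg hU
  refine le_trans (le_of_eq (Finset.sum_congr rfl fun k hk => ?_)) h1
  rw [tendsto_nhds_unique (D.lim hU hk) ((hm k hk).mono_left hU), neg_sq]

/-- in the extreme case `t` and `± u` agree in the mean -/
theorem extreme (hN : Sys N) {U : Ultrafilter ℝ} (hU : (U : Filter ℝ) ≤ 𝓝[>] 0) {t v : P → ℝ}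
    (ht : Bd t) (ht2 : M N U (fun p => t p ^ 2) ≤ 1) (hv : Bd v)
    (hv2 : M N U (fun p => v p ^ 2) = 1) {m : ℝ} (hm2 : m ^ 2 = 1)
    (hm : (M N U fun p => t p * v p) = m) :
    (M N U fun p => (t p - m * v p) ^ 2) = 0 ∧
      ∀ ψ : P → ℝ, Bd ψ → (M N U fun p => t p * ψ p) = m * M N U fun p => v p * ψ p := by
  have hb := ht.sub (hv.const_mul m)
  have h1 : (M N U fun p => (t p - m * v p) ^ 2) = 0 := by
    refine le_antisymm ?_ (M_nonneg hN hU hb.sq fun p => sq_nonneg _)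
    have e : (fun p => (t p - m * v p) ^ 2) =
        fun p => (t p ^ 2 + (-(2 * m)) * (t p * v p)) + (m ^ 2) * v p ^ 2 := by
      funext p
      ring
    rw [e, M_add hN hU (ht.sq.add ((ht.mul hv).const_mul _)) (hv.sq.const_mul _),
      M_add hN hU ht.sq ((ht.mul hv).const_mul _), M_const_mul hN hU (ht.mul hv),
      M_const_mul hN hU hv.sq, hv2, hm]
    nlinarith
  refine ⟨h1, fun ψ hψ => ?_⟩
  have h2 := M_cs hN hU hb hψ
  rw [h1, zero_mul] at h2
  have h3 : (M N U fun p => (t p - m * v p) * ψ p) = 0 := by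
    have := sq_nonneg (M N U fun p => (t p - m * v p) * ψ p)
    exact pow_eq_zero_iff (n := 2) (by norm_num) |>.1 (le_antisymm h2 this)
  have e : (fun p => (t p - m * v p) * ψ p) = fun p => t p * ψ p - m * (v p * ψ p) := by
    funext p
    ring
  rw [e, M_sub hN hU (ht.mul hψ) ((hv.mul hψ).const_mul m), M_const_mul hN hU (hv.mul hψ)] at h3
  linarith

end

end Pool.Agent.TH553.RS
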