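import Pool.Agent.TH553.RS.Ext

set_option autoImplicit false

/-!
# Final form for number fields
-/

namespace Pool.Agent.TH553.RS

open Complex Filter Topology ComplexConjugate NumberField IsDedekindDomain Pool.Agent.H341R2
  Asymptotics Pool.Agent.W353.TP Pool.Agent.W353.AB CongruenceSubgroup
open Pool.Agent.TH941 (Hecke)
open Pool.Agent.W165.RS (ac)
open Pool.Agent.H341R2.EC (twist IsModel IsMinAt)
open scoped MatrixGroups TensorProduct

section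
variable {F : Type} [Field F] [NumberField F]

theorem map_Q (W : WeierstrassCurve ℤ) :
    (W.map (algebraMap ℤ ℚ)).map (algebraMap ℚ F) = W.map (algebraMap ℤ F) := by
  rw [WeierstrassCurve.map_map]
  congr 1
  exact RingHom.ext_int _ _

/-- the size over `F` -/
theorem size_F (W : WeierstrassCurve ℤ) (hΔ : W.Δ ≠ 0) {d : 𝓞 F} (hd : d ≠ 0)
    (V : HeightOneSpectrum (𝓞 F) → WeierstrassCurve (𝓞 F))
    (hV : ∀ v, IsMinAt (twist (W.map (algebraMap ℤ F)) (d : F)) v (V v)) (τ : ℝ) :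
    (∀ᶠ ε : ℝ in 𝓝[>] 0, LE V (3 / 2 + τ * I + ε) ≠ 0) ∧
    Tendsto (fun ε => qt (NH ℚ) (fun x => tq (cP W) (cQ W) x * uq ℚ d τ x) ε -
      Real.log ‖LE V (3 / 2 + τ * I + ε)‖ / Real.log (1 / ε)) (𝓝[>] 0) (𝓝 0) := by
  have h1Q : ((1 : 𝓞 ℚ) : ℚ) = 1 := map_one (algebraMap (𝓞 ℚ) ℚ)
  have hP : ((cP W : 𝓞 ℚ) : ℚ) = ((1 : 𝓞 ℚ) : ℚ) ^ 4 * (W.map (algebraMap ℤ ℚ)).c₄ := by
    rw [WeierstrassCurve.map_c₄, h1Q, one_pow, one_mul]
    unfold cP
    exact (IsScalarTower.algebraMap_apply ℤ (𝓞 ℚ) ℚ _).symm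
  have hQ : ((cQ W : 𝓞 ℚ) : ℚ) = ((1 : 𝓞 ℚ) : ℚ) ^ 6 * (W.map (algebraMap ℤ ℚ)).c₆ := by
    rw [WeierstrassCurve.map_c₆, h1Q, one_pow, one_mul]
    unfold cQ
    exact (IsScalarTower.algebraMap_apply ℤ (𝓞 ℚ) ℚ _).symm
  have hD : cP W ^ 3 - cQ W ^ 2 ≠ 0 := by
    rw [disc_eq]
    have h1 : Function.Injective (algebraMap ℤ (𝓞 ℚ)) := FaithfulSMul.algebraMap_injective ℤ (𝓞 ℚ)
    rw [Ne, map_eq_zero_iff _ h1]
    exact mul_ne_zero (by norm_num) hΔ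
  obtain ⟨h1, h2⟩ := size_E (K := ℚ) (F := F) (W.map (algebraMap ℤ ℚ)) one_ne_zero hP hQ hD hd V
    (by rw [map_Q]; exact hV) τ
  exact ⟨h1, corr_of_size _ _ d τ h2⟩

end

section
variable {N : ℕ} [NeZero N] {f : CuspForm (Gamma0 N : Subgroup (GL (Fin 2) ℝ)) 2}
  {W : WeierstrassCurve ℤ}

/-- the hypotheses -/
structure Hyp (W : WeierstrassCurve ℤ) (f : CuspForm (Gamma0 N : Subgroup (GL (Fin 2) ℝ)) 2) :
    Prop where
  disc : W.Δ ≠ 0
  hecke : Hecke f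
  points : ∀ p : ℕ, p.Prime → ¬ (p : ℤ) ∣ W.Δ → ac f p = (tr W p : ℂ)

variable {κ : Type*} {S : Finset κ} {F : κ → Type} [∀ k, Field (F k)] [∀ k, NumberField (F k)]

theorem dat (H : Hyp W f) (d : ∀ k, 𝓞 (F k)) (hd : ∀ k ∈ S, d k ≠ 0) (τ : κ → ℝ)
    (x : κ → ℝ → ℝ)
    (hx : ∀ k ∈ S, Tendsto (fun ε => qt (NH ℚ) (fun y => tq (cP W) (cQ W) y * uq ℚ (d k) (τ k) y) ε -
      x k ε) (𝓝[>] 0) (𝓝 0)) :
    Dat (NH ℚ) S (tq (cP W) (cQ W)) (fun k => uq ℚ (d k) (τ k))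
      (fun k l => gq ℚ (d k) (τ k) (d l) (τ l)) x where
  sys := sysHS ℚ
  bt := bd_tq _ _
  t2 := fun _ hU => (M_tq W H.disc H.hecke H.points hU).le
  bu := fun _ _ => bd_uq _ _
  gr := fun k hk l hl => gramR (hd k hk) (hd l hl) _ _
  cx := hx

theorem gq_self {K F F' : Type} [Field K] [NumberField K] [Field F] [NumberField F]
    [Field F'] [NumberField F'] [Algebra K F] [Algebra K F'] {τ : ℝ} (hτ : τ ≠ 0)
    (D : 𝓞 F) (D' : 𝓞 F') : gq K D τ D' τ = 1 / 2 * inum K F F' (D : F) (D' : F') := by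
  unfold gq
  rw [if_pos rfl, if_neg (fun h => hτ (by linarith))]
  ring

/-- **Virtual characters of norm one.** -/
theorem norm_one (H : Hyp W f) (d : ∀ k, 𝓞 (F k)) (hd : ∀ k ∈ S, d k ≠ 0) (τ : ℝ)
    (x : κ → ℝ → ℝ)
    (hx : ∀ k ∈ S, Tendsto (fun ε => qt (NH ℚ) (fun y => tq (cP W) (cQ W) y * uq ℚ (d k) τ y) ε -
      x k ε) (𝓝[>] 0) (𝓝 0))
    (m c : κ → ℤ) (hm : ∀ k ∈ S, Tendsto (x k) (𝓝[>] 0) (𝓝 (-(m k : ℝ))))
    (hN : ∑ k ∈ S, ∑ l ∈ S, (c k * c l) * (inum ℚ (F k) (F l) (d k : F k) (d l : F l) : ℤ) = 1) :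
    |∑ k ∈ S, c k * m k| ≤ 1 ∧
    (τ ≠ 0 ∨ 3 ≤ |∑ k ∈ S, c k * (Module.finrank ℚ (F k) : ℤ)| ∨ SatoTate W →
      ∑ k ∈ S, c k * m k = 0) := by
  classical
  have D := dat H d hd (fun _ => τ) x hx
  have hg := D.gram_lim (m := fun k => (m k : ℝ)) hm fun k => (c k : ℝ)
  have hNR : ∑ k ∈ S, ∑ l ∈ S, ((c k : ℝ) * c l) *
      (inum ℚ (F k) (F l) (d k : F k) (d l : F l) : ℝ) = 1 := by
    have h1 : ((∑ k ∈ S, ∑ l ∈ S, (c k * c l) *
      (inum ℚ (F k) (F l) (d k : F k) (d l : F l) : ℤ) : ℤ) : ℝ) = 1 := by rw [hN, Int.cast_one]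
    rw [← h1]
    push_cast
    rfl
  set y : ℤ := ∑ k ∈ S, c k * m k with hy
  have hyR : ∑ k ∈ S, (c k : ℝ) * (m k : ℝ) = y := by
    rw [hy]
    push_cast
    rfl
  rw [hyR] at hg
  have hle : (y : ℝ) ^ 2 ≤ 1 ∧ (τ ≠ 0 → (y : ℝ) ^ 2 ≤ 1 / 2) := by
    by_cases h0 : τ = 0
    · subst h0
      simp only [gq_self_zero] at hg
      rw [hNR] at hg
      exact ⟨hg, fun h => absurd rfl h⟩
    · simp only [gq_self h0] at hg
      have e : ∑ k ∈ S, ∑ l ∈ S, ((c k : ℝ) * c l) *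
          (1 / 2 * (inum ℚ (F k) (F l) (d k : F k) (d l : F l) : ℝ)) =
          1 / 2 * ∑ k ∈ S, ∑ l ∈ S, ((c k : ℝ) * c l) *
            (inum ℚ (F k) (F l) (d k : F k) (d l : F l) : ℝ) := by
        rw [Finset.mul_sum]
        refine Finset.sum_congr rfl fun k _ => ?_
        rw [Finset.mul_sum]
        exact Finset.sum_congr rfl fun l _ => by ring
      rw [e, hNR, mul_one] at hg
      exact ⟨by linarith, fun _ => hg⟩
  have hy1 : |y| ≤ 1 := by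
    have h1 : y ^ 2 ≤ 1 := by exact_mod_cast hle.1
    have h2 : |y| ^ 2 ≤ 1 := by rw [sq_abs]; exact h1
    have h3 := abs_nonneg y
    nlinarith
  refine ⟨hy1, fun h => ?_⟩
  by_contra hne
  have hsq : (y : ℝ) ^ 2 = 1 := by
    have h1 : |y| = 1 := le_antisymm hy1 (Int.one_le_abs hne)
    have h2 : y ^ 2 = 1 := by rw [← sq_abs, h1]; norm_num
    exact_mod_cast h2
  by_cases h0 : τ = 0
  · subst h0
    obtain ⟨U, hU⟩ := Ultrafilter.exists_le (𝓝[>] (0 : ℝ))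
    have hyM : (M (NH ℚ) U fun x => tq (cP W) (cQ W) x * uS S d c 0 x) = -(y : ℝ) := by
      rw [M_tuS d c 0 (bd_tq _ _) hU, ← hyR, ← Finset.sum_neg_distrib]
      refine Finset.sum_congr rfl fun k hk => ?_
      rw [tendsto_nhds_unique (D.lim hU hk) ((hm k hk).mono_left hU)]
      ring
    refine no_extreme W H.disc d hd c hN hU (M_tq W H.disc H.hecke H.points hU).le
      (m := -(y : ℝ)) (by rw [neg_sq, hsq]) hyM ?_
    rcases h with h | h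
    · exact absurd rfl h
    · exact h
  · have := hle.2 h0
    linarith

/-- at most one exceptional character -/
theorem unique_exc (H : Hyp W f) (d : ∀ k, 𝓞 (F k)) (hd : ∀ k ∈ S, d k ≠ 0)
    (x : κ → ℝ → ℝ)
    (hx : ∀ k ∈ S, Tendsto (fun ε => qt (NH ℚ) (fun y => tq (cP W) (cQ W) y * uq ℚ (d k) 0 y) ε -
      x k ε) (𝓝[>] 0) (𝓝 0))
    (m c c' : κ → ℤ) (hm : ∀ k ∈ S, Tendsto (x k) (𝓝[>] 0) (𝓝 (-(m k : ℝ))))
    (hN : ∑ k ∈ S, ∑ l ∈ S, (c k * c l) * (inum ℚ (F k) (F l) (d k : F k) (d l : F l) : ℤ) = 1)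
    (hN' : ∑ k ∈ S, ∑ l ∈ S, (c' k * c' l) * (inum ℚ (F k) (F l) (d k : F k) (d l : F l) : ℤ) = 1)
    (hc : ∑ k ∈ S, c k * m k ≠ 0) (hc' : ∑ k ∈ S, c' k * m k ≠ 0) :
    |∑ k ∈ S, ∑ l ∈ S, (c k * c' l) * (inum ℚ (F k) (F l) (d k : F k) (d l : F l) : ℤ)| = 1 := by
  classical
  have D := dat H d hd (fun _ => (0 : ℝ)) x hx
  have hone : ∀ e : κ → ℤ,
      ∑ k ∈ S, ∑ l ∈ S, (e k * e l) * (inum ℚ (F k) (F l) (d k : F k) (d l : F l) : ℤ) = 1 →
      ∑ k ∈ S, e k * m k ≠ 0 → |∑ k ∈ S, e k * m k| = 1 := fun e h1 h2 =>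
    le_antisymm (norm_one H d hd 0 x hx m e hm h1).1 (Int.one_le_abs h2)
  have h1 := hone c hN hc
  have h2 := hone c' hN' hc'
  set y := ∑ k ∈ S, c k * m k with hy
  set y' := ∑ k ∈ S, c' k * m k with hy'
  set J : κ → κ → ℤ := fun k l => (inum ℚ (F k) (F l) (d k : F k) (d l : F l) : ℤ) with hJ
  have hsymm : ∀ k ∈ S, ∀ l ∈ S, J k l = J l k := by
    intro k hk l hl
    rw [hJ]
    simp only
    rw [inum_comm' (hd k hk) (hd l hl)]
  set z := ∑ k ∈ S, ∑ l ∈ S, (c k * c' l) * J k l with hz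
  have hz' : ∑ k ∈ S, ∑ l ∈ S, (c' k * c l) * J k l = z := by
    rw [hz, Finset.sum_comm]
    refine Finset.sum_congr rfl fun k hk => Finset.sum_congr rfl fun l hl => ?_
    rw [hsymm l hl k hk]
    ring
  have key : ∀ a b : ℤ, (a * y + b * y') ^ 2 ≤ a ^ 2 + b ^ 2 + 2 * (a * b * z) := by
    intro a b
    have hg := D.gram_lim (m := fun k => (m k : ℝ)) hm fun k => ((a * c k + b * c' k : ℤ) : ℝ)
    simp only [gq_self_zero] at hg
    have e1 : ∑ k ∈ S, ((a * c k + b * c' k : ℤ) : ℝ) * (m k : ℝ) = ((a * y + b * y' : ℤ) : ℝ) := by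
      rw [hy, hy', Finset.mul_sum, Finset.mul_sum, ← Finset.sum_add_distrib]
      push_cast
      exact Finset.sum_congr rfl fun k _ => by ring
    have e2 : ∑ k ∈ S, ∑ l ∈ S, (((a * c k + b * c' k : ℤ) : ℝ) * ((a * c l + b * c' l : ℤ) : ℝ)) *
        (inum ℚ (F k) (F l) (d k : F k) (d l : F l) : ℝ) =
        ((a ^ 2 + b ^ 2 + 2 * (a * b * z) : ℤ) : ℝ) := by
      have e3 : ∑ k ∈ S, ∑ l ∈ S, ((a * c k + b * c' k) * (a * c l + b * c' l)) * J k l =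
          a ^ 2 * (∑ k ∈ S, ∑ l ∈ S, (c k * c l) * J k l) +
          b ^ 2 * (∑ k ∈ S, ∑ l ∈ S, (c' k * c' l) * J k l) +
          (a * b * (∑ k ∈ S, ∑ l ∈ S, (c k * c' l) * J k l) +
          a * b * (∑ k ∈ S, ∑ l ∈ S, (c' k * c l) * J k l)) := by
        simp only [Finset.mul_sum, ← Finset.sum_add_distrib]
        exact Finset.sum_congr rfl fun k _ => Finset.sum_congr rfl fun l _ => by ring
      rw [hN, hN', hz', ← hz] at e3
      have e4 : a ^ 2 * 1 + b ^ 2 * 1 + (a * b * z + a * b * z) =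
          a ^ 2 + b ^ 2 + 2 * (a * b * z) := by ring
      rw [e4] at e3
      rw [← e3]
      push_cast
      rfl
    rw [e1, e2] at hg
    exact_mod_cast hg
  have hyy : y ^ 2 = 1 := by rw [← sq_abs, h1]; norm_num
  have hyy' : y' ^ 2 = 1 := by rw [← sq_abs, h2]; norm_num
  have k1 := key y y'
  have k2 := key y (-y')
  have e1 : y * y + y' * y' = 2 := by nlinarith
  have e2 : y * y + -y' * y' = 0 := by nlinarith
  rw [e1] at k1
  rw [e2] at k2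
  have h3 : y * y' * z = 1 := by nlinarith
  have h4 : |y * y' * z| = 1 := by rw [h3]; norm_num
  rw [abs_mul, abs_mul, h1, h2, one_mul, one_mul] at h4
  exact h4

/-- the intertwining numbers of the trivial twist -/
theorem inum_one (F F' : Type) [Field F] [NumberField F] [Field F'] [NumberField F'] :
    inum ℚ F F' 1 1 = Nat.card (MaximalSpectrum (F ⊗[ℚ] F')) := by
  unfold inum
  refine Nat.card_congr (Equiv.subtypeUnivEquiv fun m => ?_)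
  refine ⟨1, ?_⟩
  rw [mul_one]
  exact map_one _

theorem card_max_rat (F F' : Type) [Field F] [NumberField F] [Field F'] [NumberField F']
    (h : Module.finrank ℚ F' = 1) : Nat.card (MaximalSpectrum (F ⊗[ℚ] F')) = 1 := by
  have h1 := card_max_le ℚ F F'
  rw [h] at h1
  have h2 : Nonempty (MaximalSpectrum (F ⊗[ℚ] F')) := inferInstance
  have h3 : 0 < Fintype.card (MaximalSpectrum (F ⊗[ℚ] F')) := Fintype.card_pos
  rw [Nat.card_eq_fintype_card]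
  omega

/-- the pairings of a field and a field of degree one -/
theorem pair_rat (F F' : Type) [Field F] [NumberField F] [Field F'] [NumberField F']
    (h : Module.finrank ℚ F' = 1) : inum ℚ F F' 1 1 = 1 ∧ inum ℚ F' F 1 1 = 1 ∧
      inum ℚ F' F' 1 1 = 1 := by
  have hF : ((1 : 𝓞 F) : F) = 1 := map_one (algebraMap (𝓞 F) F)
  have hF' : ((1 : 𝓞 F') : F') = 1 := map_one (algebraMap (𝓞 F') F')
  have h1 : inum ℚ F F' 1 1 = 1 := by rw [inum_one, card_max_rat F F' h]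
  refine ⟨h1, ?_, by rw [inum_one, card_max_rat F' F' h]⟩
  have h2 := inum_comm' (K := ℚ) (D := (1 : 𝓞 F)) (D' := (1 : 𝓞 F')) one_ne_zero one_ne_zero
  rw [hF, hF'] at h2
  rw [← h2]
  exact h1

end

end Pool.Agent.TH553.RS
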