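import Pool.Agent.TH553.RS.NF
import Pool.Agent.W540.BE.EC

set_option autoImplicit false

/-!
# The mean value of `a_p² / p`
-/

namespace Pool.Agent.TH553.RS

open Complex Filter Topology ComplexConjugate NumberField IsDedekindDomain Pool.Agent.H341R2
  Asymptotics Pool.Agent.W353.TP Pool.Agent.W353.AB CongruenceSubgroup
open Pool.Agent.W540.BE (EP affCount)
open Pool.Agent.TH941 (gg cr Hecke gg_nonneg)
open Pool.Agent.W165.RS (ac)
open Pool.Agent.H341R2.EC (csum aff_eq_short short_eq)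
open scoped MatrixGroups

section
variable {N : ℕ} [NeZero N] {f : CuspForm (Gamma0 N : Subgroup (GL (Fin 2) ℝ)) 2}

theorem tsum_cr (f : CuspForm (Gamma0 N : Subgroup (GL (Fin 2) ℝ)) 2) (w : ℝ) :
    ∑' n : ℕ, cr f n * (n : ℝ) ^ (-w) =
      ∑' p : Nat.Primes, (gg f (p : ℕ) - 1) * ((p : ℕ) : ℝ) ^ (-(1 + w)) := by
  have h1 := tsum_subtype {n : ℕ | n.Prime} fun n : ℕ => (gg f n - 1) * (n : ℝ) ^ (-(1 + w))
  refine Eq.trans ?_ h1.symm
  refine tsum_congr fun n => ?_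
  unfold cr Set.indicator
  by_cases h : n.Prime
  · have hn : (0 : ℝ) < n := by exact_mod_cast h.pos
    rw [if_pos h, if_pos (show n ∈ {n : ℕ | n.Prime} from h)]
    simp only
    rw [show -(1 + w) = -w - 1 by ring, Real.rpow_sub_one hn.ne']
    ring
  · rw [if_neg h, if_neg (show n ∉ {n : ℕ | n.Prime} from h), zero_mul]

theorem gg_le (hf : Hecke f) (p : Nat.Primes) : |gg f (p : ℕ)| ≤ 4 := by
  rw [abs_of_nonneg (gg_nonneg f _)]
  exact hf.mult.g_le p.2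

/-- Rankin-Selberg, for the primes -/
theorem E_gg (hf : Hecke f) :
    Tendsto (fun ε => E ε (fun p => gg f (p : ℕ)) / lam ε) (𝓝[>] 0) (𝓝 1) := by
  obtain ⟨C, hC⟩ := hf.cr_limit
  have h1 : Tendsto (fun ε : ℝ => (∑' n : ℕ, cr f n * (n : ℝ) ^ (-ε)) / lam ε + 1) (𝓝[>] 0)
      (𝓝 (0 + 1)) := (hC.div_atTop lam_tendsto).add_const 1
  rw [zero_add] at h1
  refine h1.congr' ?_
  filter_upwards [self_mem_nhdsWithin, lam_tendsto.eventually_gt_atTop 0] with ε h2 h3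
  have hε : (0 : ℝ) < ε := h2
  rw [tsum_cr]
  have e1 : (∑' p : Nat.Primes, (gg f (p : ℕ) - 1) * ((p : ℕ) : ℝ) ^ (-(1 + ε))) =
      E ε (fun p => gg f (p : ℕ)) - lam ε := by
    have e2 := E_add hε (φ := fun p : Nat.Primes => gg f (p : ℕ)) (ψ := fun _ => (-1 : ℝ))
      (B := 4) (B' := 1) (fun p => gg_le hf p) (fun p => by simp)
    have e3 : E ε (fun _ : Nat.Primes => (-1 : ℝ)) = -lam ε := by
      unfold E lam
      rw [← tsum_neg]
      exact tsum_congr fun p => by ring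
    rw [e3] at e2
    rw [← sub_eq_add_neg] at e2
    rw [← e2]
    unfold E
    rfl
  rw [e1, sub_div, div_self h3.ne']
  ring

end

/-- homomorphisms from the integers of `ℚ` -/
theorem hom_unique (p : Nat.Primes) : Fintype.card (𝓞 ℚ →+* ZMod (p : ℕ)) = 1 := by
  refine le_antisymm ?_ ?_
  · have h1 := card_hom_le (K := ℚ) p
    rwa [Module.finrank_self] at h1
  · exact Fintype.card_pos_iff.2 ⟨(Int.castRingHom (ZMod (p : ℕ))).comp
      Rat.ringOfIntegersEquiv.toRingHom⟩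

/-- functions of the norm only -/
theorem EH_norm {ε : ℝ} (hε : 0 < ε) {h : Nat.Primes → ℝ} {B : ℝ} (hB : ∀ p, |h p| ≤ B) :
    EP (NH ℚ) ε (fun x => h x.1) = E ε h := by
  have h1 := EH_eq (K := ℚ) hε (φ := fun x => h x.1) (B := B) (fun x => hB x.1)
  have h2 : (fun p : Nat.Primes => ∑ u : 𝓞 ℚ →+* ZMod (p : ℕ), h (⟨p, u⟩ : HX ℚ).1) = h := by
    funext p
    change ∑ _u : 𝓞 ℚ →+* ZMod (p : ℕ), h p = h p
    rw [Finset.sum_const, Finset.card_univ, hom_unique, one_smul]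
  rw [h2] at h1
  exact h1

theorem fin_prime (S : Set Nat.Primes) (hS : S.Finite) : {x : HX ℚ | x.1 ∈ S}.Finite := by
  have h1 : Function.Injective (fun x : HX ℚ => x.1) := by
    rintro ⟨p, u⟩ ⟨q, u'⟩ h
    have h' : p = q := h
    subst h'
    have : Subsingleton (𝓞 ℚ →+* ZMod (p : ℕ)) := Fintype.card_le_one_iff_subsingleton.1 (hom_unique p).le
    rw [Subsingleton.elim u u']
  exact hS.preimage h1.injOn

theorem fin_dvd {m : ℤ} (hm : m ≠ 0) : {p : Nat.Primes | ((p : ℕ) : ℤ) ∣ m}.Finite := by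
  have h1 : {n : ℕ | n ∣ m.natAbs}.Finite := by
    refine (Nat.divisors m.natAbs).finite_toSet.subset fun n hn => ?_
    rw [Finset.mem_coe, Nat.mem_divisors]
    exact ⟨hn, by simpa using hm⟩
  refine (h1.preimage (f := fun p : Nat.Primes => (p : ℕ)) Subtype.val_injective.injOn).subset ?_
  intro p hp
  exact Int.natCast_dvd.1 hp

section

/-- the coefficient of the curve -/
noncomputable def tr (W : WeierstrassCurve ℤ) (p : ℕ) : ℤ :=
  (p : ℤ) + 1 - ((affCount (W.map (Int.castRingHom (ZMod p))) : ℤ) + 1)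

/-- the invariants as integers of `ℚ` -/
noncomputable def cP (W : WeierstrassCurve ℤ) : 𝓞 ℚ := algebraMap ℤ (𝓞 ℚ) W.c₄

noncomputable def cQ (W : WeierstrassCurve ℤ) : 𝓞 ℚ := algebraMap ℤ (𝓞 ℚ) W.c₆

theorem hom_int {R : Type*} [Ring R] (u : 𝓞 ℚ →+* R) (n : ℤ) : u (algebraMap ℤ (𝓞 ℚ) n) = n := by
  simp

theorem disc_eq (W : WeierstrassCurve ℤ) :
    cP W ^ 3 - cQ W ^ 2 = algebraMap ℤ (𝓞 ℚ) (1728 * W.Δ) := by
  unfold cP cQ
  rw [← map_pow, ← map_pow, ← map_sub, W.c_relation]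

theorem tq_eq (W : WeierstrassCurve ℤ) (x : HX ℚ) (h6 : ¬ ((x.1 : ℕ) : ℤ) ∣ 6 * W.Δ) :
    tq (cP W) (cQ W) x = (tr W (x.1 : ℕ) : ℝ) / Real.sqrt (x.1 : ℕ) := by
  obtain ⟨p, u⟩ := x
  have hfact : Fact (p : ℕ).Prime := ⟨p.2⟩
  have h6' : ((6 : ℤ) : ZMod (p : ℕ)) ≠ 0 := by
    rw [Ne, ZMod.intCast_zmod_eq_zero_iff_dvd]
    exact fun h => h6 (h.mul_right _)
  have hΔ' : ((W.Δ : ℤ) : ZMod (p : ℕ)) ≠ 0 := by
    rw [Ne, ZMod.intCast_zmod_eq_zero_iff_dvd]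
    exact fun h => h6 (h.mul_left _)
  have h1728 : ((1728 * W.Δ : ℤ) : ZMod (p : ℕ)) ≠ 0 := by
    have e : ((1728 * W.Δ : ℤ) : ZMod (p : ℕ)) = ((6 : ℤ) : ZMod (p : ℕ)) ^ 3 *
        ((2 : ℤ) : ZMod (p : ℕ)) ^ 3 * ((W.Δ : ℤ) : ZMod (p : ℕ)) := by
      push_cast
      ring
    rw [e]
    have h2 : ((2 : ℤ) : ZMod (p : ℕ)) ≠ 0 := by
      intro h
      apply h6'
      have : ((6 : ℤ) : ZMod (p : ℕ)) = ((3 : ℤ) : ZMod (p : ℕ)) * ((2 : ℤ) : ZMod (p : ℕ)) := by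
        push_cast
        norm_num
      rw [this, h, mul_zero]
    exact mul_ne_zero (mul_ne_zero (pow_ne_zero _ h6') (pow_ne_zero _ h2)) hΔ'
  have hu6 : u 6 ≠ 0 := by
    have e : u 6 = ((6 : ℤ) : ZMod (p : ℕ)) := by
      rw [map_ofNat]
      norm_num
    rw [e]
    exact h6'
  have huD : u (cP W ^ 3 - cQ W ^ 2) ≠ 0 := by
    rw [disc_eq, hom_int]
    exact h1728
  have hcs : csH (cP W) (cQ W) ⟨p, u⟩ = -tr W (p : ℕ) := by
    have e1 : csH (cP W) (cQ W) ⟨p, u⟩ = csum (u (cP W)) (u (cQ W)) := rfl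
    set V := W.map (Int.castRingHom (ZMod (p : ℕ))) with hV
    have e2 : u (cP W) = V.c₄ := by
      unfold cP
      rw [hom_int, hV, WeierstrassCurve.map_c₄]
      rfl
    have e3 : u (cQ W) = V.c₆ := by
      unfold cQ
      rw [hom_int, hV, WeierstrassCurve.map_c₆]
      rfl
    have h6z : (6 : ZMod (p : ℕ)) ≠ 0 := by
      have : (6 : ZMod (p : ℕ)) = ((6 : ℤ) : ZMod (p : ℕ)) := by norm_num
      rw [this]
      exact h6'
    have e4 : affCount V = Pool.Agent.H341R2.EC.short V.c₄ V.c₆ := aff_eq_short h6z V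
    have e5 := short_eq h6z V.c₄ V.c₆
    rw [e1, e2, e3]
    unfold tr
    rw [← hV, e4, e5, ZMod.card]
    unfold csum
    ring
  unfold tq tEH
  rw [if_pos ⟨hu6, huD⟩, hcs]
  have e : -((-tr W (p : ℕ) : ℤ) : ℂ) * ((Real.sqrt (p : ℕ) : ℝ) : ℂ)⁻¹ =
      (((tr W (p : ℕ) : ℝ) / Real.sqrt (p : ℕ) : ℝ) : ℂ) := by
    push_cast
    ring
  rw [e, Complex.ofReal_re]

variable {N : ℕ} [NeZero N] {f : CuspForm (Gamma0 N : Subgroup (GL (Fin 2) ℝ)) 2}

/-- **The mean value of `a_p² / p` is one.** -/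
theorem M_tq (W : WeierstrassCurve ℤ) (hΔ : W.Δ ≠ 0) (hf : Hecke f)
    (hp : ∀ p : ℕ, p.Prime → ¬ (p : ℤ) ∣ W.Δ → ac f p = (tr W p : ℂ))
    {U : Ultrafilter ℝ} (hU : (U : Filter ℝ) ≤ 𝓝[>] 0) :
    M (NH ℚ) U (fun x => tq (cP W) (cQ W) x ^ 2) = 1 := by
  have hb : Bd fun x : HX ℚ => gg f (x.1 : ℕ) := ⟨4, fun x => gg_le hf x.1⟩
  have h1 : M (NH ℚ) U (fun x => gg f (x.1 : ℕ)) = 1 := by
    refine M_of_tendsto hU ((E_gg hf).congr' ?_)
    filter_upwards [self_mem_nhdsWithin] with ε hε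
    unfold qt
    rw [EH_norm (show (0 : ℝ) < ε from hε) (h := fun p => gg f (p : ℕ)) (fun p => gg_le hf p)]
  rw [← h1]
  refine M_congr_fin (sysHS ℚ) hU (bd_tq _ _).sq hb ?_
  refine (fin_prime _ (fin_dvd (m := 6 * W.Δ) (mul_ne_zero (by norm_num) hΔ))).subset ?_
  intro x hx
  by_contra hcon
  apply hx
  have hcon' : ¬ ((x.1 : ℕ) : ℤ) ∣ 6 * W.Δ := hcon
  have hpos : (0 : ℝ) < (x.1 : ℕ) := by exact_mod_cast x.1.2.pos
  rw [tq_eq W x hcon']
  unfold Pool.Agent.TH941.gg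
  rw [hp _ x.1.2 (fun h => hcon' (h.mul_left _)), Complex.norm_intCast, sq_abs, div_pow,
    Real.sq_sqrt hpos.le]

end

end Pool.Agent.TH553.RS
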