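import Pool.Agent.W540.BE.Gen

set_option autoImplicit false

/-!
# Means along ultrafilters

For an ultrafilter `U` finer than `𝓝[>] 0` the limits along `U` of `(∑_v φ(v) N(v)^(-1-ε)) / λ(ε)` are a
positive normalised linear functional on the bounded functions.
-/

namespace Pool.Agent.TH553.RS

open Complex Filter Topology Pool.Agent.H341R2 Pool.Agent.W540.BE

section

variable {P : Type*} {N : P → ℕ}

/-- bounded functions -/
def Bd (φ : P → ℝ) : Prop := ∃ B : ℝ, ∀ p, |φ p| ≤ B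

theorem Bd.add {φ ψ : P → ℝ} (h : Bd φ) (h' : Bd ψ) : Bd fun p => φ p + ψ p := by
  obtain ⟨B, hB⟩ := h
  obtain ⟨B', hB'⟩ := h'
  exact ⟨B + B', fun p => (abs_add_le _ _).trans (add_le_add (hB p) (hB' p))⟩

theorem Bd.mul {φ ψ : P → ℝ} (h : Bd φ) (h' : Bd ψ) : Bd fun p => φ p * ψ p := by
  obtain ⟨B, hB⟩ := h
  obtain ⟨B', hB'⟩ := h'
  refine ⟨B * B', fun p => ?_⟩
  rw [abs_mul]
  exact mul_le_mul (hB p) (hB' p) (abs_nonneg _) ((abs_nonneg _).trans (hB p))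

theorem Bd.const (c : ℝ) : Bd fun _ : P => c := ⟨|c|, fun _ => le_rfl⟩

theorem Bd.const_mul {φ : P → ℝ} (h : Bd φ) (c : ℝ) : Bd fun p => c * φ p := (Bd.const c).mul h

theorem Bd.neg {φ : P → ℝ} (h : Bd φ) : Bd fun p => -φ p := by
  obtain ⟨B, hB⟩ := h
  exact ⟨B, fun p => by rw [abs_neg]; exact hB p⟩

theorem Bd.sub {φ ψ : P → ℝ} (h : Bd φ) (h' : Bd ψ) : Bd fun p => φ p - ψ p := by
  simpa [sub_eq_add_neg] using h.add h'.neg

theorem Bd.sq {φ : P → ℝ} (h : Bd φ) : Bd fun p => φ p ^ 2 := by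
  have e : (fun p => φ p ^ 2) = fun p => φ p * φ p := funext fun p => pow_two _
  rw [e]
  exact h.mul h

theorem Bd.abs {φ : P → ℝ} (h : Bd φ) : Bd fun p => |φ p| := by
  obtain ⟨B, hB⟩ := h
  exact ⟨B, fun p => by rw [abs_abs]; exact hB p⟩

theorem Bd.sum {κ : Type*} (K : Finset κ) {φ : κ → P → ℝ} (h : ∀ k ∈ K, Bd (φ k)) :
    Bd fun p => ∑ k ∈ K, φ k p := by
  classical
  induction K using Finset.induction_on with
  | empty => simpa using Bd.const (P := P) 0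
  | insert a K ha ih =>
    simp only [Finset.sum_insert ha]
    exact (h a (Finset.mem_insert_self _ _)).add
      (ih fun k hk => h k (Finset.mem_insert_of_mem hk))

variable (N) in
/-- the quotients -/
noncomputable def qt (φ : P → ℝ) (ε : ℝ) : ℝ := EP N ε φ / lam ε

/-- the hypotheses on the primes -/
structure Sys (N : P → ℕ) : Prop where
  sys : NormSys N
  one : Tendsto (qt N fun _ => 1) (𝓝[>] 0) (𝓝 1)

theorem abs_EP_le (hN : NormSys N) {φ : P → ℝ} {B : ℝ} (hφ : ∀ p, |φ p| ≤ B) {ε : ℝ}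
    (hε : 0 < ε) : |EP N ε φ| ≤ B * EP N ε fun _ => 1 := by
  rw [abs_le]
  constructor
  · have h7 := EP_le hN hε (φ := fun p => (-1) * φ p) (B := B)
      (fun p => by rw [abs_mul, abs_neg, abs_one, one_mul]; exact hφ p) (b := B)
      (fun p => by have := (abs_le.1 (hφ p)).1; linarith)
    rw [EP_const_mul] at h7
    linarith
  · exact EP_le hN hε hφ fun p => (le_abs_self _).trans (hφ p)

/-- the quotients of a bounded function are bounded -/
theorem Sys.bdd (hN : Sys N) {φ : P → ℝ} (hφ : Bd φ) :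
    ∃ C : ℝ, ∀ᶠ ε : ℝ in 𝓝[>] 0, |qt N φ ε| ≤ C := by
  obtain ⟨B, hB⟩ := hφ
  refine ⟨|B| * 2, ?_⟩
  filter_upwards [hN.one.eventually_lt_const (by norm_num : (1 : ℝ) < 2),
    lam_tendsto.eventually_gt_atTop 0, self_mem_nhdsWithin] with ε h1 h2 h3
  have h4 := abs_EP_le hN.sys hB (show 0 < ε from h3)
  unfold qt at *
  rw [abs_div, abs_of_pos h2, div_le_iff₀ h2]
  rw [div_lt_iff₀ h2] at h1
  have h5 : 0 ≤ EP N ε fun _ => (1 : ℝ) := EP_nonneg fun _ => zero_le_one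
  calc |EP N ε φ| ≤ B * EP N ε fun _ => 1 := h4
    _ ≤ |B| * EP N ε fun _ => 1 := mul_le_mul_of_nonneg_right (le_abs_self B) h5
    _ ≤ |B| * (2 * lam ε) := mul_le_mul_of_nonneg_left h1.le (abs_nonneg _)
    _ = _ := by ring

/-- limits along ultrafilters of bounded functions -/
theorem exists_lim (U : Ultrafilter ℝ) {f : ℝ → ℝ} {C : ℝ} (h : ∀ᶠ ε in (U : Filter ℝ), |f ε| ≤ C) :
    ∃ x, Tendsto f U (𝓝 x) := by
  have h1 : IsCompact (Set.Icc (-C) C) := isCompact_Icc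
  have h2 : ((U.map f : Ultrafilter ℝ) : Filter ℝ) ≤ 𝓟 (Set.Icc (-C) C) := by
    rw [Ultrafilter.coe_map, Filter.le_principal_iff, Filter.mem_map]
    filter_upwards [h] with ε hε
    exact abs_le.1 hε
  obtain ⟨x, -, hx⟩ := h1.ultrafilter_le_nhds (U.map f) h2
  exact ⟨x, by rw [Ultrafilter.coe_map] at hx; exact hx⟩

open Classical in
variable (N) in
/-- the mean value -/
noncomputable def M (U : Ultrafilter ℝ) (φ : P → ℝ) : ℝ :=
  if h : ∃ x, Tendsto (qt N φ) U (𝓝 x) then h.choose else 0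

variable {U : Ultrafilter ℝ}

theorem M_eq {φ : P → ℝ} {x : ℝ} (h : Tendsto (qt N φ) U (𝓝 x)) : M N U φ = x := by
  unfold M
  rw [dif_pos ⟨x, h⟩]
  exact tendsto_nhds_unique (Exists.choose_spec (⟨x, h⟩ : ∃ x, Tendsto (qt N φ) U (𝓝 x))) h

theorem M_lim (hN : Sys N) (hU : (U : Filter ℝ) ≤ 𝓝[>] 0) {φ : P → ℝ} (hφ : Bd φ) :
    Tendsto (qt N φ) U (𝓝 (M N U φ)) := by
  obtain ⟨C, hC⟩ := hN.bdd hφ
  obtain ⟨x, hx⟩ := exists_lim U (hU hC)
  rw [M_eq hx]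
  exact hx

theorem pos_of_le (hU : (U : Filter ℝ) ≤ 𝓝[>] 0) : ∀ᶠ ε in (U : Filter ℝ), (0 : ℝ) < ε ∧ 0 < lam ε :=
  hU ((Filter.eventually_iff.2 self_mem_nhdsWithin).and (lam_tendsto.eventually_gt_atTop 0))

theorem M_one (hN : Sys N) (hU : (U : Filter ℝ) ≤ 𝓝[>] 0) : M N U (fun _ => 1) = 1 :=
  M_eq (hN.one.mono_left hU)

theorem M_const_mul (hN : Sys N) (hU : (U : Filter ℝ) ≤ 𝓝[>] 0) {φ : P → ℝ} (hφ : Bd φ) (c : ℝ) :
    M N U (fun p => c * φ p) = c * M N U φ := by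
  refine M_eq (((M_lim hN hU hφ).const_mul c).congr fun ε => ?_)
  unfold qt
  rw [EP_const_mul]
  ring

theorem M_const (hN : Sys N) (hU : (U : Filter ℝ) ≤ 𝓝[>] 0) (c : ℝ) : M N U (fun _ => c) = c := by
  have h := M_const_mul hN hU (Bd.const (P := P) 1) c
  rw [M_one hN hU, mul_one] at h
  simpa using h

theorem M_add (hN : Sys N) (hU : (U : Filter ℝ) ≤ 𝓝[>] 0) {φ ψ : P → ℝ} (hφ : Bd φ) (hψ : Bd ψ) :
    M N U (fun p => φ p + ψ p) = M N U φ + M N U ψ := by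
  refine M_eq (((M_lim hN hU hφ).add (M_lim hN hU hψ)).congr' ?_)
  filter_upwards [pos_of_le hU] with ε h
  obtain ⟨B, hB⟩ := hφ
  obtain ⟨B', hB'⟩ := hψ
  unfold qt
  rw [EP_add hN.sys h.1 hB hB']
  ring

theorem M_neg (hN : Sys N) (hU : (U : Filter ℝ) ≤ 𝓝[>] 0) {φ : P → ℝ} (hφ : Bd φ) :
    M N U (fun p => -φ p) = -M N U φ := by
  have h := M_const_mul hN hU hφ (-1)
  simpa using h

theorem M_sub (hN : Sys N) (hU : (U : Filter ℝ) ≤ 𝓝[>] 0) {φ ψ : P → ℝ} (hφ : Bd φ) (hψ : Bd ψ) :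
    M N U (fun p => φ p - ψ p) = M N U φ - M N U ψ := by
  have h := M_add hN hU hφ hψ.neg
  rw [M_neg hN hU hψ] at h
  simpa [sub_eq_add_neg] using h

theorem M_sum (hN : Sys N) (hU : (U : Filter ℝ) ≤ 𝓝[>] 0) {κ : Type*} (K : Finset κ)
    {φ : κ → P → ℝ} (h : ∀ k ∈ K, Bd (φ k)) :
    M N U (fun p => ∑ k ∈ K, φ k p) = ∑ k ∈ K, M N U (φ k) := by
  classical
  induction K using Finset.induction_on with
  | empty => simpa using M_const hN hU (P := P) 0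
  | insert a K ha ih =>
    simp only [Finset.sum_insert ha]
    rw [M_add hN hU (h a (Finset.mem_insert_self _ _))
      (Bd.sum K fun k hk => h k (Finset.mem_insert_of_mem hk)),
      ih fun k hk => h k (Finset.mem_insert_of_mem hk)]

theorem M_nonneg (hN : Sys N) (hU : (U : Filter ℝ) ≤ 𝓝[>] 0) {φ : P → ℝ} (hφ : Bd φ)
    (h : ∀ p, 0 ≤ φ p) : 0 ≤ M N U φ := by
  refine ge_of_tendsto (M_lim hN hU hφ) ?_
  filter_upwards [pos_of_le hU] with ε hε
  exact div_nonneg (EP_nonneg h) hε.2.le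

theorem M_mono (hN : Sys N) (hU : (U : Filter ℝ) ≤ 𝓝[>] 0) {φ ψ : P → ℝ} (hφ : Bd φ) (hψ : Bd ψ)
    (h : ∀ p, φ p ≤ ψ p) : M N U φ ≤ M N U ψ := by
  have h1 := M_nonneg hN hU (hψ.sub hφ) fun p => sub_nonneg.2 (h p)
  rw [M_sub hN hU hψ hφ] at h1
  linarith

/-- Cauchy-Schwarz -/
theorem M_cs (hN : Sys N) (hU : (U : Filter ℝ) ≤ 𝓝[>] 0) {φ ψ : P → ℝ} (hφ : Bd φ) (hψ : Bd ψ) :
    (M N U fun p => φ p * ψ p) ^ 2 ≤ (M N U fun p => φ p ^ 2) * M N U fun p => ψ p ^ 2 := by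
  have key : ∀ x : ℝ, 0 ≤ (M N U fun p => ψ p ^ 2) * (x * x) +
      (2 * M N U fun p => φ p * ψ p) * x + M N U fun p => φ p ^ 2 := by
    intro x
    have h1 : 0 ≤ M N U fun p => (φ p + x * ψ p) ^ 2 :=
      M_nonneg hN hU (hφ.add (hψ.const_mul x)).sq fun p => sq_nonneg _
    have h2 : (fun p => (φ p + x * ψ p) ^ 2) =
        fun p => ((x * x) * ψ p ^ 2 + (2 * x) * (φ p * ψ p)) + φ p ^ 2 := by
      funext p
      ring
    rw [h2, M_add hN hU ((hψ.sq.const_mul _).add ((hφ.mul hψ).const_mul _)) hφ.sq,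
      M_add hN hU (hψ.sq.const_mul _) ((hφ.mul hψ).const_mul _), M_const_mul hN hU hψ.sq,
      M_const_mul hN hU (hφ.mul hψ)] at h1
    linarith
  have h1 := discrim_le_zero key
  rw [discrim] at h1
  nlinarith

/-- the mean value of a function with a limit -/
theorem M_of_tendsto (hU : (U : Filter ℝ) ≤ 𝓝[>] 0) {φ : P → ℝ} {c : ℝ}
    (h : Tendsto (qt N φ) (𝓝[>] 0) (𝓝 c)) : M N U φ = c := M_eq (h.mono_left hU)

/-- the mean of a function differing from another one by a finite number of values -/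
theorem M_congr_fin (hN : Sys N) (hU : (U : Filter ℝ) ≤ 𝓝[>] 0) {φ ψ : P → ℝ} (hφ : Bd φ)
    (hψ : Bd ψ) (h : {p | φ p ≠ ψ p}.Finite) : M N U φ = M N U ψ := by
  have h0 : M N U (fun p => φ p - ψ p) = 0 := by
    obtain ⟨B, hB⟩ := hφ.sub hψ
    refine M_eq ?_
    have hlim : Tendsto (fun ε : ℝ => (h.toFinset.card * B) / lam ε) (𝓝[>] 0) (𝓝 0) :=
      tendsto_const_nhds.div_atTop lam_tendsto
    refine squeeze_zero_norm' ?_ (hlim.mono_left hU)
    filter_upwards [pos_of_le hU] with ε hε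
    unfold qt
    rw [norm_div, Real.norm_eq_abs, Real.norm_eq_abs, abs_of_pos hε.2]
    refine div_le_div_of_nonneg_right ?_ hε.2.le
    rw [EP, tsum_eq_sum (s := h.toFinset) fun p hp => by
      rw [Set.Finite.mem_toFinset, Set.mem_ofPred_eq, not_not] at hp
      rw [hp, sub_self, zero_mul]]
    refine (Finset.abs_sum_le_sum_abs _ _).trans ?_
    rw [← nsmul_eq_mul]
    refine Finset.sum_le_card_nsmul _ _ _ fun p _ => ?_
    have hp1 : (1 : ℝ) ≤ N p := by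
      have := hN.sys.two_le p
      exact_mod_cast (by omega : 1 ≤ N p)
    have h1 : (N p : ℝ) ^ (-(1 + ε)) ≤ 1 :=
      Real.rpow_le_one_of_one_le_of_nonpos hp1 (by linarith [hε.1])
    rw [abs_mul, abs_of_nonneg (wP_nonneg ε p)]
    calc |φ p - ψ p| * (N p : ℝ) ^ (-(1 + ε)) ≤ |φ p - ψ p| * 1 :=
          mul_le_mul_of_nonneg_left h1 (abs_nonneg _)
      _ ≤ B := by rw [mul_one]; exact hB p
  rw [M_sub hN hU hφ hψ] at h0
  linarith

end

/-- an inequality that holds along all ultrafilters holds eventually -/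
theorem eventually_of_ultra {p : ℝ → Prop}
    (h : ∀ U : Ultrafilter ℝ, (U : Filter ℝ) ≤ 𝓝[>] 0 → ∀ᶠ ε in (U : Filter ℝ), p ε) :
    ∀ᶠ ε in 𝓝[>] (0 : ℝ), p ε := by
  rw [Filter.eventually_iff, Filter.mem_iff_ultrafilter]
  exact fun U hU => h U hU

theorem tendsto_of_ultra {f : ℝ → ℝ} {c : ℝ}
    (h : ∀ U : Ultrafilter ℝ, (U : Filter ℝ) ≤ 𝓝[>] 0 → Tendsto f U (𝓝 c)) :
    Tendsto f (𝓝[>] 0) (𝓝 c) := by
  rw [Filter.tendsto_iff_ultrafilter]
  exact fun U hU => h U hU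

end Pool.Agent.TH553.RS
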