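import Pool.Agent.TH553.RS.Bessel
import Pool.Agent.W353.NF.EC
import Pool.Agent.TH941.Newform

set_option autoImplicit false

/-!
# Twists of an elliptic curve over `ℚ` over all number fields: the data for Bessel's inequality
-/

namespace Pool.Agent.TH553.RS

open Complex Filter Topology ComplexConjugate NumberField IsDedekindDomain Pool.Agent.H341R2
  Asymptotics Pool.Agent.W353.TP Pool.Agent.W353.AB
open Pool.Agent.W540.BE (EP)

section
variable {K : Type} [Field K] [NumberField K]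

variable (K) in
/-- the norm -/
def NH : HX K → ℕ := fun x => (x.1 : ℕ)

theorem EP_sysH (ε : ℝ) (φ : HX K → ℝ) : EP (NH K) ε φ = (sysH K).E ε φ := rfl

theorem ratio_of_littleO {f : ℝ → ℝ} {c : ℝ} (h : (fun ε => f ε - c * LL ε) =o[𝓝[>] 0] LL) :
    Tendsto (fun ε => f ε / lam ε) (𝓝[>] 0) (𝓝 c) := by
  have h1 : Tendsto (fun ε => (f ε - c * LL ε) / LL ε) (𝓝[>] 0) (𝓝 0) := h.tendsto_div_nhds_zero
  have h2 : Tendsto (fun ε => (lam ε - LL ε) / LL ε) (𝓝[>] 0) (𝓝 0) :=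
    lam0_sub.tendsto_div_nhds_zero
  have h3 : Tendsto (fun ε => ((f ε - c * LL ε) / LL ε + c) / ((lam ε - LL ε) / LL ε + 1)) (𝓝[>] 0)
      (𝓝 ((0 + c) / (0 + 1))) := (h1.add_const c).div (h2.add_const 1) (by norm_num)
  rw [zero_add, zero_add, div_one] at h3
  refine h3.congr' ?_
  filter_upwards [LL_tendsto.eventually_gt_atTop 0, lam_tendsto.eventually_gt_atTop 0] with ε h4 h5
  have e1 : (f ε - c * LL ε) / LL ε + c = f ε / LL ε := by
    field_simp
    ring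
  have e2 : (lam ε - LL ε) / LL ε + 1 = lam ε / LL ε := by
    field_simp
    ring
  rw [e1, e2, div_div_div_cancel_right₀ h4.ne']

variable (K) in
theorem sysHS : Sys (NH K) where
  sys := ⟨(sysH K).two_le, (sysH K).summable⟩
  one := by
    have h1 := ratio_of_littleO (f := (sysH K).lam) (c := 1) (by
      simpa only [one_mul] using lamS_sub (sysH K))
    refine h1.congr fun ε => ?_
    unfold qt
    congr 1
    unfold NormSys.lam EP
    exact tsum_congr fun p => (one_mul _).symm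

theorem qt_of_littleO {φ : HX K → ℝ} {c : ℝ}
    (h : (fun ε => (sysH K).E ε φ - c * LL ε) =o[𝓝[>] 0] LL) :
    Tendsto (qt (NH K) φ) (𝓝[>] 0) (𝓝 c) := ratio_of_littleO h

variable {F : Type} [Field F] [NumberField F] [Algebra K F]

/-- the real part of `vq` -/
noncomputable def uq (K : Type) {F : Type} [Field K] [NumberField K] [Field F] [NumberField F]
    [Algebra K F] (D : 𝓞 F) (τ : ℝ) (x : HX K) : ℝ := (vq K D τ x).re

theorem abs_uq (D : 𝓞 F) (τ : ℝ) (x : HX K) : |uq K D τ x| ≤ Module.finrank ℚ F :=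
  (Complex.abs_re_le_norm _).trans (norm_vq D τ x)

theorem bd_uq (D : 𝓞 F) (τ : ℝ) : Bd (uq K D τ) := ⟨_, abs_uq D τ⟩

theorem conj_vq_neg (D : 𝓞 F) (τ : ℝ) (x : HX K) : conj (vq K D (-τ) x) = vq K D τ x := by
  have hcj : conj (((x.1 : ℕ) : ℂ) ^ (((-τ : ℝ) : ℂ) * I)) =
      ((x.1 : ℕ) : ℂ) ^ (-(((-τ : ℝ) : ℂ) * I)) := (sysH K).conj_cpow_I x (-τ)
  unfold vq
  rw [map_mul, Complex.conj_ofReal, hcj]
  congr 2
  push_cast
  ring

/-- at height zero -/
theorem uq_zero (D : 𝓞 F) (x : HX K) : uq K D 0 x = push K (qh D) x := by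
  unfold uq vq
  simp

open Classical in
/-- the entries of the real Gram matrix -/
noncomputable def gq (K : Type) {F F' : Type} [Field K] [NumberField K] [Field F] [NumberField F]
    [Algebra K F] [Field F'] [NumberField F'] [Algebra K F'] (D : 𝓞 F) (τ : ℝ) (D' : 𝓞 F')
    (σ : ℝ) : ℝ :=
  1 / 2 * (if τ = σ then (inum K F F' (D : F) (D' : F') : ℝ) else 0) +
    1 / 2 * (if τ = -σ then (inum K F F' (D : F) (D' : F') : ℝ) else 0)

theorem gramR {F' : Type} [Field F'] [NumberField F'] [Algebra K F'] {D : 𝓞 F} {D' : 𝓞 F'}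
    (hD : D ≠ 0) (hD' : D' ≠ 0) (τ σ : ℝ) :
    Tendsto (qt (NH K) fun x => uq K D τ x * uq K D' σ x) (𝓝[>] 0) (𝓝 (gq K D τ D' σ)) := by
  classical
  set c1 : ℝ := if τ = σ then (inum K F F' (D : F) (D' : F') : ℝ) else 0 with hc1
  set c2 : ℝ := if τ = -σ then (inum K F F' (D : F) (D' : F') : ℝ) else 0 with hc2
  set φ : ℝ → HX K → ℝ := fun ρ x => (vq K D τ x * conj (vq K D' ρ x)).re with hφ
  have h1 : (fun ε => EP (NH K) ε (φ σ) - c1 * LL ε) =o[𝓝[>] 0] LL :=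
    gram (K := K) hD hD' τ σ
  have h2 : (fun ε => EP (NH K) ε (φ (-σ)) - c2 * LL ε) =o[𝓝[>] 0] LL :=
    gram (K := K) hD hD' τ (-σ)
  have hb : ∀ (ρ : ℝ), Bd (φ ρ) := by
    refine fun ρ => ⟨(Module.finrank ℚ F : ℝ) * Module.finrank ℚ F', fun x => ?_⟩
    refine (Complex.abs_re_le_norm _).trans ?_
    rw [norm_mul, Complex.norm_conj]
    exact mul_le_mul (norm_vq D τ x) (norm_vq D' ρ x) (norm_nonneg _) (by positivity)
  have e1 : (fun x => uq K D τ x * uq K D' σ x) = fun x : HX K =>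
      1 / 2 * φ σ x + 1 / 2 * φ (-σ) x := by
    funext x
    rw [hφ]
    simp only
    rw [conj_vq_neg]
    unfold uq
    simp only [Complex.mul_re, Complex.conj_re, Complex.conj_im]
    ring
  have hg : gq K D τ D' σ = 1 / 2 * c1 + 1 / 2 * c2 := rfl
  rw [hg]
  have t1 : Tendsto (qt (NH K) (φ σ)) (𝓝[>] 0) (𝓝 c1) := qt_of_littleO h1
  have t2 : Tendsto (qt (NH K) (φ (-σ))) (𝓝[>] 0) (𝓝 c2) := qt_of_littleO h2
  refine ((t1.const_mul (1 / 2)).add (t2.const_mul (1 / 2))).congr' ?_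
  filter_upwards [self_mem_nhdsWithin] with ε hε
  have hε' : (0 : ℝ) < ε := hε
  obtain ⟨B1, hB1⟩ := (hb σ).const_mul (1 / 2)
  obtain ⟨B2, hB2⟩ := (hb (-σ)).const_mul (1 / 2)
  rw [e1]
  unfold qt
  rw [Pool.Agent.W540.BE.EP_add (sysHS K).sys hε' hB1 hB2, Pool.Agent.W540.BE.EP_const_mul,
    Pool.Agent.W540.BE.EP_const_mul]
  ring

end

section
variable {F : Type} [Field F] [NumberField F]

/-- the coefficients -/
noncomputable def tq (P Q : 𝓞 ℚ) (x : HX ℚ) : ℝ := (tEH P Q x).re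

theorem abs_tq (P Q : 𝓞 ℚ) (x : HX ℚ) : |tq P Q x| ≤ 2 :=
  (Complex.abs_re_le_norm _).trans (norm_tEH P Q x)

theorem bd_tq (P Q : 𝓞 ℚ) : Bd (tq P Q) := ⟨2, abs_tq P Q⟩

theorem corr_syE (P Q : 𝓞 ℚ) (d : 𝓞 F) (τ ε : ℝ) :
    (syE P Q).corr (F := F) (fun _ => d) τ ε =
      (sysH ℚ).E ε fun x => tq P Q x * uq ℚ d τ x := by
  have e3 : (syE P Q).corr (F := F) (fun _ => d) τ ε =
      ∑ _j ∈ ({()} : Finset Unit), (sysH ℚ).E ε fun x : HX ℚ =>
        (tEH P Q x * conj (vq ℚ (∏ _i ∈ ({0} : Finset (Fin 1)), d) τ x)).re := rfl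
  rw [e3, Finset.sum_singleton, Finset.prod_singleton]
  congr 1
  funext x
  have h1 : tEH P Q x = ((tq P Q x : ℝ) : ℂ) := by
    apply Complex.ext
    · simp [tq]
    · rw [Pool.Agent.W353.NF.tEH_im]
      simp
  rw [h1, Complex.re_ofReal_mul, Complex.conj_re]
  rfl

/-- from sizes to correlations -/
theorem corr_of_size (P Q : 𝓞 ℚ) (d : 𝓞 F) (τ : ℝ) {X : ℝ → ℝ}
    (h : (syE P Q).IsSize (F := F) (fun _ => d) τ X) :
    Tendsto (fun ε => qt (NH ℚ) (fun x => tq P Q x * uq ℚ d τ x) ε - X ε) (𝓝[>] 0) (𝓝 0) := by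
  obtain ⟨C, hC⟩ := size_bdd (syE P Q) h
  have h1 : (fun ε => X ε * LL ε - (sysH ℚ).E ε fun x => tq P Q x * uq ℚ d τ x) =o[𝓝[>] 0] LL := by
    unfold Sy.IsSize at h
    simpa only [corr_syE] using h
  have h2 : (fun ε => X ε * (lam ε - LL ε)) =o[𝓝[>] 0] LL := by
    have h3 : X =O[𝓝[>] 0] (fun _ => (1 : ℝ)) := by
      refine IsBigO.of_bound C ?_
      filter_upwards [hC] with ε hε
      simpa using hε
    simpa using h3.mul_isLittleO lam0_sub
  have h3 : (fun ε => ((sysH ℚ).E ε fun x => tq P Q x * uq ℚ d τ x) - X ε * lam ε)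
      =o[𝓝[>] 0] LL := by
    refine (h1.add h2).neg_left.congr_left fun ε => ?_
    ring
  have h4 := ratio_of_littleO (f := fun ε => ((sysH ℚ).E ε fun x => tq P Q x * uq ℚ d τ x) -
    X ε * lam ε) (c := 0) (by simpa using h3)
  refine h4.congr' ?_
  filter_upwards [lam_tendsto.eventually_gt_atTop 0] with ε h5
  unfold qt
  rw [sub_div, mul_div_cancel_right₀ _ h5.ne']
  rfl

end

end Pool.Agent.TH553.RS
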